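import Pool.Agent.P.MP_6c8412_lc.Coding

set_option linter.unusedVariables false

namespace Pool.Agent.P.MP_6c8412_lc

open FirstOrder Language

universe u

theorem ncard_dep {G : Type u} {μ ν : Type} {S : Set (μ → G)} (hS : S.Finite)
    {B : (μ → G) → Set (ν → G)} (hB : ∀ a, (B a).Finite) :
    {x : μ ⊕ ν → G | (fun m => x (Sum.inl m)) ∈ S ∧
      (fun m => x (Sum.inr m)) ∈ B (fun m => x (Sum.inl m))}.Finite ∧
    {x : μ ⊕ ν → G | (fun m => x (Sum.inl m)) ∈ S ∧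
      (fun m => x (Sum.inr m)) ∈ B (fun m => x (Sum.inl m))}.ncard =
      ∑ a ∈ hS.toFinset, (B a).ncard := by
  let e : (Σ _ : μ → G, ν → G) ↪ (μ ⊕ ν → G) := ⟨fun p => Sum.elim p.1 p.2, by
    rintro ⟨a, b⟩ ⟨a', b'⟩ h
    have h1 : a = a' := funext fun m => congrFun h (Sum.inl m)
    have h2 : b = b' := funext fun m => congrFun h (Sum.inr m)
    subst h1 h2
    rfl⟩
  have key : {x : μ ⊕ ν → G | (fun m => x (Sum.inl m)) ∈ S ∧
      (fun m => x (Sum.inr m)) ∈ B (fun m => x (Sum.inl m))} =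
      ((hS.toFinset.sigma fun a => (hB a).toFinset).map e : Finset _) := by
    ext x
    simp only [Set.mem_ofPred_eq, Finset.coe_map, Set.mem_image, Finset.mem_coe, Finset.mem_sigma,
      Set.Finite.mem_toFinset]
    constructor
    · rintro ⟨h1, h2⟩
      exact ⟨⟨_, _⟩, ⟨h1, h2⟩, by funext m; cases m <;> rfl⟩
    · rintro ⟨⟨a, b⟩, ⟨h1, h2⟩, rfl⟩
      exact ⟨h1, h2⟩
  rw [key]
  refine ⟨Finset.finite_toSet _, ?_⟩
  rw [Set.ncard_coe_finset, Finset.card_map, Finset.card_sigma]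
  exact Finset.sum_congr rfl fun a _ => (Set.ncard_eq_toFinset_card _ (hB a)).symm

/-- Definable families of sets of tuples with an auxiliary parameter. -/
def DSet {α μ : Type} (A : ∀ (G : Type u) [Group G], (α → G) → G → Set (μ → G)) : Prop :=
  Df false EC (fun G _ (w : (α ⊕ Unit) ⊕ μ → G) => (fun m => w (Sum.inr m)) ∈
    A G (fun a => w (Sum.inl (Sum.inl a))) (w (Sum.inl (Sum.inr ()))))

theorem DSet.mem {α β μ : Type} {A : ∀ (G : Type u) [Group G], (α → G) → G → Set (μ → G)}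
    (h : DSet A) {V : ∀ (G : Type u) [Group G], (β → G) → α → G}
    {Z : ∀ (G : Type u) [Group G], (β → G) → G} {X : ∀ (G : Type u) [Group G], (β → G) → μ → G}
    (hX : ∀ a, Tm (fun G _ v => X G v a)) (hV : ∀ a, Tm (fun G _ v => V G v a)) (hZ : Tm Z) :
    Df false EC (fun G _ v => X G v ∈ A G (V G v) (Z G v)) := by
  refine Df.subst h (fun G _ v => Sum.elim (Sum.elim (V G v) (fun _ => Z G v)) (X G v)) ?_
  rintro ((a | a) | a)
  · exact hV a
  · exact hZ
  · exact hX a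

/-- Functions counting the elements of a definable finite set. -/
def Cn {α : Type} (N : ∀ (G : Type u) [Group G], (α → G) → ℕ) : Prop :=
  ∃ (μ : Type) (_ : Finite μ) (A : ∀ (G : Type u) [Group G], (α → G) → G → Set (μ → G)),
    DSet A ∧ ∀ (G : Type u) [Group G], EC G → ∀ v z, z ≠ 1 →
      (A G v z).Finite ∧ (A G v z).ncard = N G v

namespace Cn

variable {α β : Type}

theorem congr {N M : ∀ (G : Type u) [Group G], (α → G) → ℕ} (h : Cn N)
    (e : ∀ (G : Type u) [Group G], EC G → ∀ v : α → G, M G v = N G v) : Cn M := by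
  obtain ⟨μ, _, A, h1, h2⟩ := h
  exact ⟨μ, inferInstance, A, h1, fun G _ hG v z hz => by
    rw [e G hG]; exact h2 G hG v z hz⟩

theorem subst {N : ∀ (G : Type u) [Group G], (α → G) → ℕ} (h : Cn N)
    (F : ∀ (G : Type u) [Group G], (β → G) → α → G) (hF : ∀ a, Tm (fun G _ v => F G v a)) :
    Cn (fun G _ v => N G (F G v)) := by
  obtain ⟨μ, _, A, h1, h2⟩ := h
  refine ⟨μ, inferInstance, fun G _ v z => A G (F G v) z, ?_,
    fun G _ hG v z hz => h2 G hG _ z hz⟩
  refine h1.mem (fun a => Tm.var _) (fun a => ?_) (Tm.var _)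
  obtain ⟨t, ht⟩ := hF a
  exact ⟨t.relabel (fun b => Sum.inl (Sum.inl b)), fun G _ v => by
    rw [Term.realize_relabel]; exact ht G _⟩

theorem card_fs {μ : Type} [Finite μ] :
    Cn.{u} (fun G _ (c : Cd μ → G) => (fs c).ncard) :=
  ⟨μ, inferInstance, fun G _ c z => fs c, Df.mem_fs (fun _ => Tm.var _) (fun _ => Tm.var _),
    fun G _ hG v z hz => ⟨fs_finite _, rfl⟩⟩

open Classical in
theorem ite {R : Pr.{u} α} (h : Df false EC R) : Cn (fun G _ v => if R G v then 1 else 0) := by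
  refine ⟨Empty, inferInstance, fun G _ v z => {x | R G v}, ?_, fun G _ hG v z hz =>
    ⟨Set.toFinite _, ?_⟩⟩
  · exact h.subst (fun G _ w a => w (Sum.inl (Sum.inl a))) (fun _ => Tm.var _)
  · by_cases hR : R G v
    · simp [hR]
    · simp [hR]

theorem add {N M : ∀ (G : Type u) [Group G], (α → G) → ℕ} (h : Cn N) (h' : Cn M) :
    Cn (fun G _ v => N G v + M G v) := by
  obtain ⟨μ, _, A, h1, h2⟩ := h
  obtain ⟨ν, _, B, h3, h4⟩ := h'
  refine ⟨Unit ⊕ μ ⊕ ν, inferInstance, fun G _ v z =>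
    {x | (x (Sum.inl ()) = 1 ∧ (fun m => x (Sum.inr (Sum.inl m))) ∈ A G v z ∧
        ∀ m, x (Sum.inr (Sum.inr m)) = 1) ∨
      (x (Sum.inl ()) = z ∧ (fun m => x (Sum.inr (Sum.inr m))) ∈ B G v z ∧
        ∀ m, x (Sum.inr (Sum.inl m)) = 1)}, ?_, fun G _ hG v z hz => ?_⟩
  · exact ((Df.eq (Tm.var _) Tm.one).and
      ((h1.mem (fun _ => Tm.var _) (fun _ => Tm.var _) (Tm.var _)).and
        (Df.forall_fin fun m => Df.eq (Tm.var _) Tm.one))).or
      ((Df.eq (Tm.var _) (Tm.var _)).and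
      ((h3.mem (fun _ => Tm.var _) (fun _ => Tm.var _) (Tm.var _)).and
        (Df.forall_fin fun m => Df.eq (Tm.var _) Tm.one)))
  · obtain ⟨a1, a2⟩ := h2 G hG v z hz
    obtain ⟨b1, b2⟩ := h4 G hG v z hz
    let f : (μ → G) → (Unit ⊕ μ ⊕ ν → G) := fun a => Sum.elim (fun _ => 1) (Sum.elim a fun _ => 1)
    let g : (ν → G) → (Unit ⊕ μ ⊕ ν → G) := fun b => Sum.elim (fun _ => z) (Sum.elim (fun _ => 1) b)
    have hf : Function.Injective f := fun a a' h =>
      funext fun m => congrFun h (Sum.inr (Sum.inl m))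
    have hg : Function.Injective g := fun a a' h =>
      funext fun m => congrFun h (Sum.inr (Sum.inr m))
    have key : {x : Unit ⊕ μ ⊕ ν → G |
        (x (Sum.inl ()) = 1 ∧ (fun m => x (Sum.inr (Sum.inl m))) ∈ A G v z ∧
        ∀ m, x (Sum.inr (Sum.inr m)) = 1) ∨
      (x (Sum.inl ()) = z ∧ (fun m => x (Sum.inr (Sum.inr m))) ∈ B G v z ∧
        ∀ m, x (Sum.inr (Sum.inl m)) = 1)} = f '' A G v z ∪ g '' B G v z := by
      ext x
      constructor
      · rintro (⟨c1, c2, c3⟩ | ⟨c1, c2, c3⟩)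
        · refine Or.inl ⟨_, c2, funext ?_⟩
          rintro (m | m | m)
          · exact c1.symm
          · rfl
          · exact (c3 m).symm
        · refine Or.inr ⟨_, c2, funext ?_⟩
          rintro (m | m | m)
          · exact c1.symm
          · exact (c3 m).symm
          · rfl
      · rintro (⟨a, ha, rfl⟩ | ⟨b, hb, rfl⟩)
        · exact Or.inl ⟨rfl, ha, fun _ => rfl⟩
        · exact Or.inr ⟨rfl, hb, fun _ => rfl⟩
    beta_reduce
    rw [key]
    refine ⟨(a1.image f).union (b1.image g), ?_⟩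
    rw [Set.ncard_union_eq _ (a1.image f) (b1.image g), Set.ncard_image_of_injective _ hf,
      Set.ncard_image_of_injective _ hg, a2, b2]
    rw [Set.disjoint_left]
    rintro _ ⟨a, -, rfl⟩ ⟨b, -, hb⟩
    exact hz (congrFun hb (Sum.inl ()))

theorem const (n : ℕ) : Cn.{u} (fun G _ (_ : α → G) => n) := by
  induction n with
  | zero => exact (ite (Df.const False)).congr (fun G _ _ v => by simp)
  | succ n ih => exact (ih.add (ite (Df.const True))).congr (fun G _ _ v => by simp)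

theorem mul {N M : ∀ (G : Type u) [Group G], (α → G) → ℕ} (h : Cn N) (h' : Cn M) :
    Cn (fun G _ v => N G v * M G v) := by
  obtain ⟨μ, _, A, h1, h2⟩ := h
  obtain ⟨ν, _, B, h3, h4⟩ := h'
  refine ⟨μ ⊕ ν, inferInstance, fun G _ v z =>
    {x | (fun m => x (Sum.inl m)) ∈ A G v z ∧ (fun m => x (Sum.inr m)) ∈ B G v z}, ?_,
    fun G _ hG v z hz => ?_⟩
  · exact (h1.mem (fun _ => Tm.var _) (fun _ => Tm.var _) (Tm.var _)).and
      (h3.mem (fun _ => Tm.var _) (fun _ => Tm.var _) (Tm.var _))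
  · obtain ⟨a1, a2⟩ := h2 G hG v z hz
    obtain ⟨b1, b2⟩ := h4 G hG v z hz
    obtain ⟨c1, c2⟩ := ncard_dep a1 (B := fun _ => B G v z) (fun _ => b1)
    refine ⟨c1, c2.trans ?_⟩
    beta_reduce
    rw [Finset.sum_const, smul_eq_mul, b2, ← a2, Set.ncard_eq_toFinset_card _ a1]

theorem sum {μ : Type} [Finite μ] {N : ∀ (G : Type u) [Group G], (α ⊕ μ → G) → ℕ} (h : Cn N)
    {c : ∀ (G : Type u) [Group G], (α → G) → Cd μ → G} (hc : ∀ k, Tm (fun G _ v => c G v k)) :
    Cn (fun G _ v => ∑ a ∈ (fs_finite (c G v)).toFinset, N G (Sum.elim v a)) := by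
  obtain ⟨ν, _, B, h3, h4⟩ := h
  refine ⟨μ ⊕ ν, inferInstance, fun G _ v z =>
    {x | (fun m => x (Sum.inl m)) ∈ fs (c G v) ∧
      (fun m => x (Sum.inr m)) ∈ B G (Sum.elim v fun m => x (Sum.inl m)) z}, ?_,
    fun G _ hG v z hz => ?_⟩
  · refine (Df.mem_fs (fun _ => Tm.var _) (fun k => ?_)).and
      (h3.mem (fun _ => Tm.var _) ?_ (Tm.var _))
    · obtain ⟨t, ht⟩ := hc k
      exact ⟨t.relabel (fun b => Sum.inl (Sum.inl b)), fun G _ v => by
        rw [Term.realize_relabel]; exact ht G _⟩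
    · rintro (a | a)
      · exact Tm.var _
      · exact Tm.var _
  · obtain ⟨c1, c2⟩ := ncard_dep (fs_finite (c G v)) (B := fun a => B G (Sum.elim v a) z)
      (fun a => (h4 G hG _ z hz).1)
    exact ⟨c1, c2.trans (Finset.sum_congr rfl fun a _ => (h4 G hG _ z hz).2)⟩

theorem le {N M : ∀ (G : Type u) [Group G], (α → G) → ℕ} (h : Cn N) (h' : Cn M) :
    Df false EC (fun G _ v => N G v ≤ M G v) := by
  obtain ⟨μ, _, A, h1, h2⟩ := h
  obtain ⟨ν, _, B, h3, h4⟩ := h'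
  have hD : Df false EC (fun G _ (v : α → G) => ∃ z : G, z ≠ 1 ∧ ∃ c : Cd (μ ⊕ ν) → G,
      (∀ x : μ → G, x ∈ A G v z → ∃ y : ν → G, y ∈ B G v z ∧ Sum.elim x y ∈ fs c) ∧
      ∀ x x' : μ → G, ∀ y : ν → G, Sum.elim x y ∈ fs c → Sum.elim x' y ∈ fs c → x = x') := by
    refine Df.ex ((Df.ne (Tm.var _) Tm.one).and (Df.exT _ (Df.and (Df.allT _ (Df.imp
      (h1.mem (fun _ => Tm.var _) (fun _ => Tm.var _) (Tm.var _)) (Df.exT _ (Df.and
      (h3.mem (fun _ => Tm.var _) (fun _ => Tm.var _) (Tm.var _))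
      (Df.mem_fs ?_ (fun _ => Tm.var _)))))) (Df.allT _ (Df.allT _ (Df.allT _
      (Df.imp (Df.mem_fs ?_ (fun _ => Tm.var _)) (Df.imp (Df.mem_fs ?_ (fun _ => Tm.var _))
      (Df.funEq (fun _ => Tm.var _) (fun _ => Tm.var _))))))))))
    all_goals
      rintro (a | a)
      · exact Tm.var _
      · exact Tm.var _
  refine hD.congr (fun G _ hG v => ⟨fun hle => ?_, ?_⟩)
  · have := hG.infinite
    obtain ⟨z, hz⟩ := exists_ne (1 : G)
    obtain ⟨a1, a2⟩ := h2 G hG v z hz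
    obtain ⟨b1, b2⟩ := h4 G hG v z hz
    rw [← a2, ← b2] at hle
    have hle' : (A G v z).encard ≤ (B G v z).encard := by
      rw [← a1.cast_ncard_eq, ← b1.cast_ncard_eq]
      exact_mod_cast hle
    obtain ⟨f, hf1, hf2⟩ := a1.exists_injOn_of_encard_le hle'
    obtain ⟨c, hc⟩ := hG.exists_code (a1.image (fun x => (Sum.elim x (f x) : μ ⊕ ν → G)))
    refine ⟨z, hz, c, fun x hx => ⟨f x, hf1 hx, hc ▸ ⟨x, hx, rfl⟩⟩, fun x x' y hx hx' => ?_⟩
    rw [hc] at hx hx'
    obtain ⟨a, ha, e⟩ := hx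
    obtain ⟨a', ha', e'⟩ := hx'
    have e1 : a = x := funext fun m => congrFun e (Sum.inl m)
    have e2 : a' = x' := funext fun m => congrFun e' (Sum.inl m)
    have e3 : f a = y := funext fun m => congrFun e (Sum.inr m)
    have e4 : f a' = y := funext fun m => congrFun e' (Sum.inr m)
    rw [← e1, ← e2]
    exact hf2 ha ha' (e3.trans e4.symm)
  · rintro ⟨z, hz, c, c1, c2⟩
    obtain ⟨a1, a2⟩ := h2 G hG v z hz
    obtain ⟨b1, b2⟩ := h4 G hG v z hz
    rw [← a2, ← b2]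
    choose! f hf1 hf2 using c1
    exact Set.ncard_le_ncard_of_injOn f hf1
      (fun x hx x' hx' e => c2 x x' (f x) (hf2 x hx) (e ▸ hf2 x' hx')) b1

end Cn

/-- Gaussian integer valued combinations of counting functions. -/
def Zn {α : Type} (F : ∀ (G : Type u) [Group G], (α → G) → ℂ) : Prop :=
  ∃ a b c d : ∀ (G : Type u) [Group G], (α → G) → ℕ, Cn a ∧ Cn b ∧ Cn c ∧ Cn d ∧
    ∀ (G : Type u) [Group G], EC G → ∀ v,
      F G v = ((a G v : ℂ) - b G v) + Complex.I * ((c G v : ℂ) - d G v)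

namespace Zn

variable {α β : Type}

theorem congr {F E : ∀ (G : Type u) [Group G], (α → G) → ℂ} (h : Zn F)
    (e : ∀ (G : Type u) [Group G], EC G → ∀ v : α → G, E G v = F G v) : Zn E := by
  obtain ⟨a, b, c, d, ha, hb, hc, hd, h⟩ := h
  exact ⟨a, b, c, d, ha, hb, hc, hd, fun G _ hG v => (e G hG v).trans (h G hG v)⟩

theorem subst {E : ∀ (G : Type u) [Group G], (α → G) → ℂ} (h : Zn E)
    (F : ∀ (G : Type u) [Group G], (β → G) → α → G) (hF : ∀ a, Tm (fun G _ v => F G v a)) :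
    Zn (fun G _ v => E G (F G v)) := by
  obtain ⟨a, b, c, d, ha, hb, hc, hd, h⟩ := h
  exact ⟨_, _, _, _, ha.subst F hF, hb.subst F hF, hc.subst F hF, hd.subst F hF,
    fun G _ hG v => h G hG _⟩

theorem ofCn {N : ∀ (G : Type u) [Group G], (α → G) → ℕ} (h : Cn N) :
    Zn (fun G _ v => (N G v : ℂ)) :=
  ⟨N, _, _, _, h, Cn.const 0, Cn.const 0, Cn.const 0, fun G _ hG v => by simp⟩

theorem add {F E : ∀ (G : Type u) [Group G], (α → G) → ℂ} (h : Zn F) (h' : Zn E) :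
    Zn (fun G _ v => F G v + E G v) := by
  obtain ⟨a, b, c, d, ha, hb, hc, hd, h⟩ := h
  obtain ⟨a', b', c', d', ha', hb', hc', hd', h'⟩ := h'
  refine ⟨_, _, _, _, ha.add ha', hb.add hb', hc.add hc', hd.add hd', fun G _ hG v => ?_⟩
  beta_reduce
  rw [h G hG, h' G hG]
  push_cast
  ring

theorem mulI {F : ∀ (G : Type u) [Group G], (α → G) → ℂ} (h : Zn F) :
    Zn (fun G _ v => Complex.I * F G v) := by
  obtain ⟨a, b, c, d, ha, hb, hc, hd, h⟩ := h
  refine ⟨_, _, _, _, hd, hc, ha, hb, fun G _ hG v => ?_⟩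
  beta_reduce
  rw [h G hG]
  linear_combination ((c G v : ℂ) - d G v) * Complex.I_mul_I

theorem neg {F : ∀ (G : Type u) [Group G], (α → G) → ℂ} (h : Zn F) :
    Zn (fun G _ v => - F G v) :=
  h.mulI.mulI.congr (fun G _ hG v => by linear_combination (- F G v) * Complex.I_mul_I)

theorem sub {F E : ∀ (G : Type u) [Group G], (α → G) → ℂ} (h : Zn F) (h' : Zn E) :
    Zn (fun G _ v => F G v - E G v) :=
  (h.add h'.neg).congr (fun G _ hG v => sub_eq_add_neg _ _)

theorem mulCn {N : ∀ (G : Type u) [Group G], (α → G) → ℕ} (hN : Cn N)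
    {F : ∀ (G : Type u) [Group G], (α → G) → ℂ} (h : Zn F) :
    Zn (fun G _ v => (N G v : ℂ) * F G v) := by
  obtain ⟨a, b, c, d, ha, hb, hc, hd, h⟩ := h
  refine ⟨_, _, _, _, hN.mul ha, hN.mul hb, hN.mul hc, hN.mul hd, fun G _ hG v => ?_⟩
  beta_reduce
  rw [h G hG]
  push_cast
  ring

theorem intMul (k : ℤ) {F : ∀ (G : Type u) [Group G], (α → G) → ℂ} (h : Zn F) :
    Zn (fun G _ v => (k : ℂ) * F G v) := by
  obtain ⟨n, rfl | rfl⟩ := Int.eq_nat_or_neg k
  · exact (mulCn (Cn.const n) h).congr (fun G _ hG v => by simp)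
  · exact (mulCn (Cn.const n) h).neg.congr (fun G _ hG v => by simp)

theorem sum {μ : Type} [Finite μ] {F : ∀ (G : Type u) [Group G], (α ⊕ μ → G) → ℂ} (h : Zn F)
    {c : ∀ (G : Type u) [Group G], (α → G) → Cd μ → G} (hc : ∀ k, Tm (fun G _ v => c G v k)) :
    Zn (fun G _ v => ∑ a ∈ (fs_finite (c G v)).toFinset, F G (Sum.elim v a)) := by
  obtain ⟨a, b, c', d, ha, hb, hc', hd, h⟩ := h
  refine ⟨_, _, _, _, ha.sum hc, hb.sum hc, hc'.sum hc, hd.sum hc, fun G _ hG v => ?_⟩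
  simp only [h G hG]
  push_cast
  rw [Finset.sum_add_distrib, ← Finset.mul_sum, Finset.sum_sub_distrib, Finset.sum_sub_distrib]

theorem re_le {F E : ∀ (G : Type u) [Group G], (α → G) → ℂ} (h : Zn F) (h' : Zn E) :
    Df false EC (fun G _ v => (F G v).re ≤ (E G v).re) := by
  obtain ⟨a, b, c, d, ha, hb, hc, hd, h⟩ := h
  obtain ⟨a', b', c', d', ha', hb', hc', hd', h'⟩ := h'
  refine ((ha.add hb').le (ha'.add hb)).congr (fun G _ hG v => ?_)
  rw [h G hG, h' G hG]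
  simp only [Complex.add_re, Complex.sub_re, Complex.natCast_re, Complex.mul_re, Complex.I_re,
    zero_mul, Complex.I_im, Complex.sub_im, Complex.natCast_im, sub_self, mul_zero, add_zero]
  rw [← Nat.cast_le (α := ℝ)]
  push_cast
  constructor <;> intro h <;> linarith

end Zn

end Pool.Agent.P.MP_6c8412_lc
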