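import Pool.Agent.P.MP_6c8412_lc.Kaplansky
import Pool.Agent.P.MP_6c8412_lc.Count

set_option linter.unusedVariables false
set_option linter.unusedSectionVars false

namespace Pool.Agent.P.MP_6c8412_lc

universe u

/-- Variables for a code of an element of the group ring over the Gaussian rationals. -/
abbrev XC : Type := (Fin 4 × Cd Bool) ⊕ Cd Unit

section

variable {G : Type u} [Group G]

/-- Sum of left translations coded by a finite relation. -/
noncomputable def sm (c : Cd Bool → G) : Op G := ∑ p ∈ (fs_finite c).toFinset, lam (p true)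

/-- Numerator of the coded operator. -/
noncomputable def num (c : XC → G) : Op G :=
  (sm (fun k => c (Sum.inl (0, k))) - sm (fun k => c (Sum.inl (1, k)))) +
    Complex.I • (sm (fun k => c (Sum.inl (2, k))) - sm (fun k => c (Sum.inl (3, k))))

/-- Denominator of the coded operator. -/
noncomputable def den (c : XC → G) : ℕ := (fs (fun k => c (Sum.inr k))).ncard + 1

/-- The coded operator. -/
noncomputable def cop (c : XC → G) : Op G := ((den c : ℂ))⁻¹ • num c

theorem sm_mem (c : Cd Bool → G) : sm c ∈ Submodule.span ℂ (Set.range (lam (G := G))) :=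
  Submodule.sum_mem _ fun p _ => Submodule.subset_span ⟨p true, rfl⟩

theorem num_mem (c : XC → G) : num c ∈ Submodule.span ℂ (Set.range (lam (G := G))) :=
  Submodule.add_mem _ (Submodule.sub_mem _ (sm_mem _) (sm_mem _))
    (Submodule.smul_mem _ _ (Submodule.sub_mem _ (sm_mem _) (sm_mem _)))

theorem cop_mem (c : XC → G) : cop c ∈ Submodule.span ℂ (Set.range (lam (G := G))) :=
  Submodule.smul_mem _ _ (num_mem c)

theorem den_pos (c : XC → G) : 0 < den c := Nat.succ_pos _

theorem num_eq (c : XC → G) : num c = (den c : ℂ) • cop c := by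
  rw [cop, smul_smul, mul_inv_cancel₀ (by exact_mod_cast (den_pos c).ne'), one_smul]

theorem EC.exists_sm (hG : EC G) (l : Multiset G) : ∃ c : Cd Bool → G, sm c = (l.map lam).sum := by
  classical
  have := hG.infinite
  have key : ∃ S : Finset (Bool → G), ∑ p ∈ S, lam (p true) = (l.map lam).sum := by
    induction l using Multiset.induction_on with
    | empty => exact ⟨∅, by simp⟩
    | cons g l ih =>
      obtain ⟨S, hS⟩ := ih
      obtain ⟨j, hj⟩ := Infinite.exists_notMem_finset (S.image (fun p => p false))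
      refine ⟨insert (fun b => cond b g j) S, ?_⟩
      rw [Finset.sum_insert (fun h => hj (Finset.mem_image.2 ⟨_, h, rfl⟩)), hS]
      simp
  obtain ⟨S, hS⟩ := key
  obtain ⟨c, hc⟩ := hG.exists_code S.finite_toSet
  refine ⟨c, ?_⟩
  rw [← hS, sm]
  congr 1
  ext p
  simp [hc]

variable (G) in
/-- The span of the left translations over the Gaussian integers. -/
noncomputable def gaussSpan : AddSubgroup (Op G) :=
  AddSubgroup.closure (Set.range lam ∪ Set.range (fun g : G => Complex.I • lam g))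

theorem gaussSpan_repr {y : Op G} (hy : y ∈ gaussSpan G) : ∃ l0 l1 l2 l3 : Multiset G,
    y = ((l0.map lam).sum - (l1.map lam).sum) + Complex.I • ((l2.map lam).sum - (l3.map lam).sum) := by
  induction hy using AddSubgroup.closure_induction with
  | mem x hx =>
    rcases hx with ⟨g, rfl⟩ | ⟨g, rfl⟩
    · exact ⟨{g}, 0, 0, 0, by simp⟩
    · exact ⟨0, 0, {g}, 0, by simp⟩
  | zero => exact ⟨0, 0, 0, 0, by simp⟩
  | add x y _ _ hx hy =>
    obtain ⟨a0, a1, a2, a3, rfl⟩ := hx
    obtain ⟨b0, b1, b2, b3, rfl⟩ := hy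
    refine ⟨a0 + b0, a1 + b1, a2 + b2, a3 + b3, ?_⟩
    simp only [Multiset.map_add, Multiset.sum_add]
    module
  | neg x _ hx =>
    obtain ⟨a0, a1, a2, a3, rfl⟩ := hx
    refine ⟨a1, a0, a3, a2, ?_⟩
    module

theorem EC.exists_cop (hG : EC G) {y : Op G} (hy : y ∈ gaussSpan G) (N : ℕ) :
    ∃ c : XC → G, cop c = (((N + 1 : ℕ) : ℂ))⁻¹ • y := by
  obtain ⟨l0, l1, l2, l3, rfl⟩ := gaussSpan_repr hy
  obtain ⟨c0, h0⟩ := hG.exists_sm l0
  obtain ⟨c1, h1⟩ := hG.exists_sm l1
  obtain ⟨c2, h2⟩ := hG.exists_sm l2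
  obtain ⟨c3, h3⟩ := hG.exists_sm l3
  have := hG.infinite
  have : Infinite (Unit → G) := Infinite.of_injective (fun g _ => g) (fun a b h => congrFun h ())
  obtain ⟨S, hS⟩ := Infinite.exists_subset_card_eq (Unit → G) N
  obtain ⟨d, hd⟩ := hG.exists_code S.finite_toSet
  refine ⟨Sum.elim (fun p => ![c0, c1, c2, c3] p.1 p.2) d, ?_⟩
  rw [← h0, ← h1, ← h2, ← h3, ← hS, ← Set.ncard_coe_finset, ← hd]
  rfl

theorem EC.span_subset_closure (hG : EC G) {T : Op G}
    (hT : T ∈ Submodule.span ℂ (Set.range (lam (G := G)))) : T ∈ closure (Set.range cop) := by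
  let B : AddSubmonoid (Op G) :=
    { carrier := {T | ∃ (N : ℕ) (y : Op G), y ∈ gaussSpan G ∧ T = (((N + 1 : ℕ) : ℂ))⁻¹ • y}
      zero_mem' := ⟨0, 0, zero_mem _, by simp⟩
      add_mem' := by
        rintro _ _ ⟨N, y, hy, rfl⟩ ⟨M, z, hz, rfl⟩
        refine ⟨N * M + N + M, (M + 1) • y + (N + 1) • z,
          add_mem (nsmul_mem hy _) (nsmul_mem hz _), ?_⟩
        have h1 : ((N + 1 : ℕ) : ℂ) ≠ 0 := by exact_mod_cast Nat.succ_ne_zero N
        have h2 : ((M + 1 : ℕ) : ℂ) ≠ 0 := by exact_mod_cast Nat.succ_ne_zero M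
        have h3 : ((N * M + N + M + 1 : ℕ) : ℂ) = ((N + 1 : ℕ) : ℂ) * ((M + 1 : ℕ) : ℂ) := by
          push_cast; ring
        rw [h3, ← Nat.cast_smul_eq_nsmul ℂ, ← Nat.cast_smul_eq_nsmul ℂ, smul_add, smul_smul,
          smul_smul]
        congr 2
        · field_simp
        · field_simp }
  have hB : (B : Set (Op G)) ⊆ Set.range cop := by
    rintro _ ⟨N, y, hy, rfl⟩
    exact hG.exists_cop hy N
  refine closure_mono hB ?_
  have hr : ∀ y ∈ gaussSpan G, ∀ r : ℝ, (r : ℂ) • y ∈ closure (B : Set (Op G)) := by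
    intro y hy r
    refine Rat.denseRange_cast.induction_on r
      (isClosed_closure.preimage (f := fun r : ℝ => (r : ℂ) • y) (by fun_prop)) (fun q => ?_)
    refine subset_closure ⟨q.den - 1, q.num • y, zsmul_mem hy _, ?_⟩
    rw [Nat.sub_add_cancel q.pos, ← Int.cast_smul_eq_zsmul ℂ, smul_smul]
    congr 1
    rw [Complex.ofReal_ratCast, Rat.cast_def, div_eq_inv_mul]
  obtain ⟨n, f, g, rfl⟩ := Submodule.mem_span_set'.1 hT
  refine (B.topologicalClosure.sum_mem fun i _ => ?_ : _ ∈ B.topologicalClosure)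
  obtain ⟨h, hh⟩ := (g i).2
  have e : f i • (g i : Op G) = ((f i).re : ℂ) • lam h + ((f i).im : ℂ) • (Complex.I • lam h) := by
    rw [smul_smul, ← add_smul, Complex.re_add_im, hh]
  rw [e]
  exact B.topologicalClosure.add_mem
    (hr _ (AddSubgroup.subset_closure (Or.inl ⟨h, rfl⟩)) _)
    (hr _ (AddSubgroup.subset_closure (Or.inr ⟨h, rfl⟩)) _)

theorem EC.exists_cop_near (hG : EC G) {T : Op G} (hM : T ∈ Mcom G) {r : ℝ} (hT : ‖T‖ ≤ r)
    {ε : ℝ} (hε : 0 < ε) : ∃ c : XC → G, ‖cop c‖ ≤ r ∧ n2 (cop c - T) < ε := by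
  rcases ((norm_nonneg T).trans hT).eq_or_lt with rfl | hr
  · obtain ⟨c, hc⟩ := hG.exists_cop (zero_mem _) 0
    have h0 : T = 0 := norm_le_zero_iff.1 hT
    rw [smul_zero] at hc
    refine ⟨c, by simp [hc], ?_⟩
    rw [hc, h0, sub_zero]
    exact ((n2_le _).trans_eq norm_zero).trans_lt hε
  · have hr' : (r : ℂ) ≠ 0 := by exact_mod_cast hr.ne'
    have hnr : ‖(r : ℂ)‖ = r := by simp [abs_of_pos hr]
    obtain ⟨δ, hδ0, hδ1, hδ2⟩ : ∃ δ : ℝ, 0 < δ ∧ δ ≤ r ∧ 3 * δ ≤ ε :=
      ⟨min r (ε / 3), by positivity, min_le_left _ _, by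
        have := min_le_right r (ε / 3); linarith⟩
    obtain ⟨b, hb1, hb2, hb3⟩ := kaplansky (SMulMemClass.smul_mem (r : ℂ)⁻¹ hM) (by
      rw [norm_smul, norm_inv, hnr, inv_mul_le_iff₀ hr, mul_one]; exact hT) (div_pos hδ0 hr)
    have hb4 : ((r - δ : ℝ) : ℂ) • b ∈ closure (Set.range (cop (G := G))) := by
      have h1 : ((r - δ : ℝ) : ℂ) • b ∈
          (Submodule.span ℂ (Set.range (lam (G := G)))).topologicalClosure :=
        Submodule.smul_mem _ _ hb1
      exact closure_minimal (fun x hx => hG.span_subset_closure hx) isClosed_closure h1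
    obtain ⟨_, ⟨c, rfl⟩, hc⟩ := Metric.mem_closure_iff.1 hb4 δ hδ0
    rw [dist_comm, dist_eq_norm] at hc
    have hn : ‖((r - δ : ℝ) : ℂ)‖ = r - δ := by
      rw [Complex.norm_real, Real.norm_eq_abs, abs_of_nonneg (by linarith)]
    refine ⟨c, ?_, ?_⟩
    · have h1 : ‖cop c‖ ≤ ‖cop c - ((r - δ : ℝ) : ℂ) • b‖ + ‖((r - δ : ℝ) : ℂ) • b‖ :=
        norm_le_norm_sub_add _ _
      rw [norm_smul, hn] at h1
      nlinarith
    · have e : cop c - T = (cop c - ((r - δ : ℝ) : ℂ) • b) +
          ((r : ℂ) • (b - (r : ℂ)⁻¹ • T) + (-(δ : ℂ)) • b) := by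
        rw [smul_sub, smul_smul, mul_inv_cancel₀ hr', one_smul]
        push_cast
        module
      have h1 := n2_le (cop c - ((r - δ : ℝ) : ℂ) • b)
      have h2 : n2 ((r : ℂ) • (b - (r : ℂ)⁻¹ • T)) < δ := by
        rw [n2_smul, hnr]
        rwa [lt_div_iff₀' hr] at hb3
      have h3 : n2 ((-(δ : ℂ)) • b) ≤ δ := by
        rw [n2_smul, norm_neg, Complex.norm_real, Real.norm_eq_abs, abs_of_pos hδ0]
        have := n2_le b
        nlinarith
      rw [e]
      have h4 := n2_add_le (cop c - ((r - δ : ℝ) : ℂ) • b)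
        ((r : ℂ) • (b - (r : ℂ)⁻¹ • T) + (-(δ : ℂ)) • b)
      have h5 := n2_add_le ((r : ℂ) • (b - (r : ℂ)⁻¹ • T)) ((-(δ : ℂ)) • b)
      linarith

theorem EC.norm_le_iff (hG : EC G) (T : Op G) {r : ℝ} (hr : 0 ≤ r) :
    ‖T‖ ≤ r ↔ ∀ c : XC → G, n2 (T * num c) ≤ r * n2 (num c) := by
  constructor
  · intro h c
    exact (n2_mul_le _ _).trans (mul_le_mul_of_nonneg_right h (n2_nonneg _))
  · intro h
    refine T.opNorm_le_bound hr fun ξ => ?_
    have hc : IsClosed {ξ : SqSum G | ‖T ξ‖ ≤ r * ‖ξ‖} := isClosed_le (by fun_prop) (by fun_prop)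
    refine hc.closure_subset_iff.2 ?_ (mem_closure_span_dl ξ)
    rintro _ ⟨S, hS, rfl⟩
    have hc' : IsClosed {S : Op G | ‖T (S (dl 1))‖ ≤ r * ‖S (dl 1)‖} :=
      isClosed_le (by fun_prop) (by fun_prop)
    refine hc'.closure_subset_iff.2 ?_ (hG.span_subset_closure hS)
    rintro _ ⟨c, rfl⟩
    have h1 := h c
    rw [num_eq, mul_smul_comm, n2_smul, n2_smul, mul_left_comm] at h1
    have h2 : 0 < ‖(den c : ℂ)‖ := norm_pos_iff.2 (by exact_mod_cast (den_pos c).ne')
    exact le_of_mul_le_mul_left h1 h2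

end

/-- Value of a monomial in the variables and their adjoints. -/
def wd {A : Type u} [Monoid A] [Star A] {ι : Type} (x : ι → A) (w : List (ι × Bool)) : A :=
  (w.map fun p => cond p.2 (star (x p.1)) (x p.1)).prod

theorem Zn.sm_apply {α : Type} {ξ : ∀ (G : Type u) [Group G], (α → G) → SqSum G}
    (h : Zn (fun G _ (v : α ⊕ Unit → G) => ξ G (fun a => v (Sum.inl a)) (v (Sum.inr ()))))
    (c : Cd Bool → α) (b : Bool) :
    Zn (fun G _ (v : α ⊕ Unit → G) => cond b (star (sm (fun k => v (Sum.inl (c k)))))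
      (sm (fun k => v (Sum.inl (c k)))) (ξ G (fun a => v (Sum.inl a))) (v (Sum.inr ()))) := by
  cases b
  · have h1 := (h.subst (fun G _ (v : (α ⊕ Unit) ⊕ Bool → G) => Sum.elim
      (fun a => v (Sum.inl (Sum.inl a)))
      (fun _ => (v (Sum.inr true))⁻¹ * v (Sum.inl (Sum.inr ())))) (by
        rintro (a | a)
        · exact Tm.var _
        · exact (Tm.var _).inv.mul (Tm.var _))).sum
      (c := fun G _ v k => v (Sum.inl (c k))) (fun k => Tm.var _)
    refine h1.congr (fun G _ hG v => ?_)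
    simp only [cond_false, sm, sum_apply, lp.coeFn_sum, Finset.sum_apply, lam_apply]
    rfl
  · have h1 := (h.subst (fun G _ (v : (α ⊕ Unit) ⊕ Bool → G) => Sum.elim
      (fun a => v (Sum.inl (Sum.inl a)))
      (fun _ => (v (Sum.inr true)) * v (Sum.inl (Sum.inr ())))) (by
        rintro (a | a)
        · exact Tm.var _
        · exact (Tm.var _).mul (Tm.var _))).sum
      (c := fun G _ v k => v (Sum.inl (c k))) (fun k => Tm.var _)
    refine h1.congr (fun G _ hG v => ?_)
    simp only [cond_true, sm, star_sum, star_lam, sum_apply, lp.coeFn_sum, Finset.sum_apply,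
      lam_apply, inv_inv]
    rfl

theorem Zn.wd_apply {ι : Type} (w : List (ι × Bool)) :
    Zn.{u} (fun G _ (v : (ι × XC) ⊕ Unit → G) =>
      wd (fun i => num (fun k => v (Sum.inl (i, k)))) w (dl 1) (v (Sum.inr ()))) := by
  classical
  induction w with
  | nil =>
    refine (Zn.ofCn (Cn.ite (Df.eq (Tm.var (Sum.inr ())) Tm.one))).congr (fun G _ hG v => ?_)
    simp only [wd, List.map_nil, List.prod_nil, one_apply_eq_self, dl_apply]
    split_ifs <;> simp
  | cons p w ih =>
    obtain ⟨i, b⟩ := p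
    have h := fun j : Fin 4 => Zn.sm_apply
      (ξ := fun G _ v => wd (fun i => num (fun k => v (i, k))) w (dl 1)) ih
      (fun k => (i, Sum.inl (j, k))) b
    cases b
    · refine (((h 0).sub (h 1)).add ((h 2).sub (h 3)).mulI).congr (fun G _ hG v => ?_)
      rfl
    · refine (((h 0).sub (h 1)).sub ((h 2).sub (h 3)).mulI).congr (fun G _ hG v => ?_)
      have e : star (num (fun k => v (Sum.inl (i, k)))) =
          (star (sm (fun k => v (Sum.inl (i, Sum.inl (0, k))))) -
            star (sm (fun k => v (Sum.inl (i, Sum.inl (1, k)))))) -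
          Complex.I • (star (sm (fun k => v (Sum.inl (i, Sum.inl (2, k))))) -
            star (sm (fun k => v (Sum.inl (i, Sum.inl (3, k)))))) := by
        rw [num, star_add, star_smul, star_sub, star_sub, Complex.star_def, Complex.conj_I,
          neg_smul, sub_eq_add_neg _ (Complex.I • _)]
      simp only [wd, List.map_cons, List.prod_cons, cond_true]
      rw [e]
      rfl

theorem Zn.tr_wd {ι : Type} (w : List (ι × Bool)) :
    Zn.{u} (fun G _ (v : ι × XC → G) => groupTr G (wd (fun i => num (fun k => v (i, k))) w)) := by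
  refine ((Zn.wd_apply w).subst (fun G _ (v : ι × XC → G) => Sum.elim v (fun _ => 1)) ?_).congr
    (fun G _ hG v => groupTr_eq _)
  rintro (a | a)
  · exact Tm.var _
  · exact Tm.one

theorem Cn.den {α : Type} (f : XC → α) : Cn.{u} (fun G _ (v : α → G) => den (fun k => v (f k))) :=
  (Cn.card_fs.subst (fun G _ (v : α → G) k => v (f (Sum.inr k))) (fun _ => Tm.var _)).add
    (Cn.const 1)

theorem Df.norm_cop_le (r : ℕ) : Df false EC.{u} (fun G _ (c : XC → G) => ‖cop c‖ ≤ r) := by
  have h1 := Zn.tr_wd.{u} [(false, true), (true, true), (true, false), (false, false)]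
  have h2 := Zn.mulCn ((((Cn.const r).mul (Cn.den (fun k => (true, k))))).mul
    ((Cn.const r).mul (Cn.den (fun k => (true, k))))) (Zn.tr_wd.{u} [(false, true), (false, false)])
  have h3 := (h1.re_le h2).subst (fun G _ (v : XC ⊕ XC → G) p =>
    cond p.1 (v (Sum.inl p.2)) (v (Sum.inr p.2))) (by
      rintro ⟨b, k⟩
      cases b
      · exact Tm.var _
      · exact Tm.var _)
  have h4 : Df false EC.{u} (fun G _ (c : XC → G) => ∀ d : XC → G,
      (groupTr G (star (num c * num d) * (num c * num d))).re ≤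
        ((((r * den c) * (r * den c) : ℕ) : ℂ) * groupTr G (star (num d) * num d)).re) := by
    refine Df.allT XC (h3.congr (fun G _ hG v => ?_))
    simp only [wd, List.map_cons, List.map_nil, List.prod_cons, List.prod_nil, cond_true,
      cond_false, mul_one, star_mul, mul_assoc]
  refine h4.congr (fun G _ hG c => ?_)
  have e : ‖cop c‖ ≤ r ↔ ‖num c‖ ≤ r * den c := by
    have h5 : (0 : ℝ) < den c := by exact_mod_cast den_pos c
    rw [num_eq, norm_smul, Complex.norm_natCast, mul_comm (r : ℝ), mul_le_mul_iff_right₀ h5]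
  rw [e, hG.norm_le_iff _ (by positivity)]
  refine forall_congr' fun d => ?_
  rw [groupTr_star_mul, ← Complex.ofReal_natCast, Complex.re_ofReal_mul, groupTr_star_mul]
  push_cast
  rw [← sq, ← mul_pow, sq_le_sq₀ (n2_nonneg _) (mul_nonneg (by positivity) (n2_nonneg _))]

end Pool.Agent.P.MP_6c8412_lc
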