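import Pool.Agent.P.MP_6c8412_lc.Generic

set_option linter.unusedVariables false

namespace Pool.Agent.P.MP_6c8412_lc

open FirstOrder Language SemidirectProduct

universe u

theorem EC.mem_zpowers_iff {G : Type u} [Group G] (hG : EC G) (t x : G) :
    x ∈ Subgroup.zpowers t ↔ ∀ y : G, y * t = t * y → y * x = x * y := by
  classical
  constructor
  · rintro ⟨k, rfl⟩ y hy
    exact (Commute.zpow_right hy k)
  · intro h
    by_contra hx
    let N := G → Multiplicative (ZMod 2)
    let χ : N := fun g => if g ∈ Subgroup.zpowers t then Multiplicative.ofAdd 1 else 1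
    have hc : ∀ g : G, (inl χ * inr g = (inr g * inl χ : N ⋊[mulAutArrow] G)) ↔
        ∀ a, χ (g⁻¹ * a) = χ a := by
      intro g
      rw [SemidirectProduct.ext_iff]
      simp only [mul_left, left_inl, right_inl, map_one, left_inr, mul_one, right_inr, one_mul,
        mul_right, and_true]
      rw [eq_comm, funext_iff]
      rfl
    have hD : Df true AllG.{u} (fun L _ (v : Bool ⊕ Unit → L) =>
        v (Sum.inr ()) * v (Sum.inl true) = v (Sum.inl true) * v (Sum.inr ()) ∧
        v (Sum.inr ()) * v (Sum.inl false) ≠ v (Sum.inl false) * v (Sum.inr ())) :=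
      (Df.eq ((Tm.var _).mul (Tm.var _)) ((Tm.var _).mul (Tm.var _))).and
        (Df.ne ((Tm.var _).mul (Tm.var _)) ((Tm.var _).mul (Tm.var _)))
    obtain ⟨y, hy1, hy2⟩ := hG Bool Unit _ hD (N ⋊[mulAutArrow] G) inr inr_injective
      (fun b => cond b t x) (fun _ => inl χ) ⟨(hc t).2 (fun a => by
        have : t⁻¹ * a ∈ Subgroup.zpowers t ↔ a ∈ Subgroup.zpowers t :=
          Subgroup.mul_mem_cancel_left _ (inv_mem (Subgroup.mem_zpowers t))
        simp only [χ, this]), fun h1 => by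
        have h2 := (hc x).1 h1 x
        simp only [χ, inv_mul_cancel, one_mem, if_true, if_neg hx] at h2
        exact absurd h2 (by decide)⟩
    exact hy2 (h _ hy1)

theorem EC.isOfFinOrder_iff {G : Type u} [Group G] (hG : EC G) (t : G) :
    IsOfFinOrder t ↔ ¬ (t ∉ Subgroup.zpowers (t ^ 2) ∧ ∃ s : G, s * t * s⁻¹ = t ^ 2) := by
  constructor
  · rintro ht ⟨h1, s, hs⟩
    apply h1
    rw [mem_zpowers_pow_iff]
    have h2 : orderOf (t ^ 2) = orderOf t := by
      rw [← hs]
      exact orderOf_injective (MulAut.conj s).toMonoidHom (MulAut.conj s).injective t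
    rw [orderOf_pow' t (by norm_num : 2 ≠ 0)] at h2
    have h3 := ht.orderOf_pos
    rw [Nat.gcd_comm]
    exact (Nat.div_eq_self.1 h2).resolve_left h3.ne'
  · intro h
    by_contra ht
    apply h
    constructor
    · rw [mem_zpowers_pow_iff, orderOf_eq_zero ht]
      norm_num
    · have ht2 : ¬ IsOfFinOrder (t ^ 2) := fun h2 => ht (h2.of_pow (by norm_num))
      obtain ⟨K, _, f, s, hf, hs⟩ := exists_conj_ext (zpowersHom G t) (zpowersHom G (t ^ 2))
        (fun a b hab => Multiplicative.toAdd.injective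
          (injective_zpow_iff_not_isOfFinOrder.2 ht hab))
        (fun a b hab => Multiplicative.toAdd.injective
          (injective_zpow_iff_not_isOfFinOrder.2 ht2 hab))
      have hD : Df true AllG.{u} (fun L _ (v : Unit ⊕ Unit → L) =>
          v (Sum.inr ()) * v (Sum.inl ()) * (v (Sum.inr ()))⁻¹ = v (Sum.inl ()) ^ 2) :=
        Df.eq (((Tm.var _).mul (Tm.var _)).mul (Tm.var _).inv) ((Tm.var _).pow 2)
      obtain ⟨y, hy⟩ := hG Unit Unit _ hD K f hf (fun _ => t) (fun _ => s) (by
        have := hs (Multiplicative.ofAdd 1)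
        simpa using this)
      exact ⟨y (), hy⟩

/-- Variables for a code of a finite relation. -/
abbrev Cd (μ : Type) : Type := Bool ⊕ μ

/-- The decoding word. -/
def dec {G : Type u} [Group G] (F s y : G) : G := (y⁻¹ * F * y) * s * (y⁻¹ * F * y)⁻¹ * s⁻¹

/-- The finite relation coded by `c`. -/
def fs {G : Type u} [Group G] {μ : Type} (c : Cd μ → G) : Set (μ → G) :=
  {x | IsOfFinOrder (c (Sum.inl false)) ∧ ∃ y ∈ Subgroup.zpowers (c (Sum.inl false)), y ≠ 1 ∧
    ∀ k, x k = dec (c (Sum.inr k)) (c (Sum.inl true)) y}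

theorem fs_finite {G : Type u} [Group G] {μ : Type} (c : Cd μ → G) : (fs c).Finite := by
  by_cases h : IsOfFinOrder (c (Sum.inl false))
  · refine ((finite_zpowers.2 h).image
      (fun y k => dec (c (Sum.inr k)) (c (Sum.inl true)) y)).subset ?_
    rintro x ⟨-, y, hy, -, hx⟩
    exact ⟨y, hy, (funext hx).symm⟩
  · exact Set.finite_empty.subset (fun x hx => h hx.1)

theorem Tm.dec {α : Type} {F s y : ∀ (G : Type u) [Group G], (α → G) → G} (hF : Tm F)
    (hs : Tm s) (hy : Tm y) : Tm (fun G _ v => dec (F G v) (s G v) (y G v)) :=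
  ((((hy.inv.mul hF).mul hy).mul hs).mul ((hy.inv.mul hF).mul hy).inv).mul hs.inv

section wreath

variable {G : Type u} [Group G] {Ω : Type}

theorem conj1 (σ : Equiv.Perm Ω) (φ : Ω → G) :
    ((inr σ)⁻¹ * inl φ * inr σ : (Ω → G) ⋊[mulAutArrow] Equiv.Perm Ω) =
      inl (fun p => φ (σ p)) := by
  have := inl_aut (φ := mulAutArrow) σ⁻¹ φ
  rw [inv_inv] at this
  rw [← map_inv, ← this]
  rfl

theorem conj2 (σ : Equiv.Perm Ω) (φ : Ω → G) :
    (inr σ * inl φ * (inr σ)⁻¹ : (Ω → G) ⋊[mulAutArrow] Equiv.Perm Ω) =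
      inl (fun p => φ (σ⁻¹ p)) := by
  have := conj1 σ⁻¹ φ
  rwa [map_inv, inv_inv] at this

end wreath

/-- Shift in the second coordinate. -/
def shT (m : ℕ) : Equiv.Perm (ℤ × ZMod m) := Equiv.prodCongr (Equiv.refl _) (Equiv.addRight 1)

theorem shT_pow (m i : ℕ) (p : ℤ × ZMod m) : (shT m ^ i) p = (p.1, p.2 + i) := by
  induction i with
  | zero => simp
  | succ i ih => rw [pow_succ', Equiv.Perm.mul_apply, ih]; simp [shT, add_assoc]

/-- Shift in the first coordinate over the base point. -/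
def shS (m : ℕ) : Equiv.Perm (ℤ × ZMod m) where
  toFun p := (p.1 + if p.2 = 0 then 1 else 0, p.2)
  invFun p := (p.1 - if p.2 = 0 then 1 else 0, p.2)
  left_inv p := by simp
  right_inv p := by simp

theorem dec_wreath {G : Type u} [Group G] (m i : ℕ) (a : ZMod m → G) :
    dec (inl (fun p => if 0 ≤ p.1 then a p.2 else 1) :
      (ℤ × ZMod m → G) ⋊[mulAutArrow] Equiv.Perm (ℤ × ZMod m)) (inr (shS m)) (inr (shT m) ^ i) =
      inl (Pi.mulSingle (0, 0) (a i)) := by
  rw [← map_pow, dec, conj1, ← map_inv, mul_assoc, mul_assoc, ← mul_assoc (inr _), conj2,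
    ← map_mul]
  congr 1
  funext p
  obtain ⟨j, z⟩ := p
  have e1 : (shS m)⁻¹ (j, z) = (j - if z = 0 then 1 else 0, z) := rfl
  simp only [Pi.mul_apply, Pi.inv_apply, e1, shT_pow]
  by_cases hz : z = 0
  · subst hz
    simp only [if_true, zero_add]
    by_cases hj : j = 0
    · subst hj
      simp
    · rw [Pi.mulSingle_eq_of_ne (by simpa using hj)]
      by_cases hj' : 0 ≤ j
      · rw [if_pos hj', if_pos (by omega), mul_inv_cancel]
      · rw [if_neg hj', if_neg (by omega), mul_inv_cancel]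
  · rw [Pi.mulSingle_eq_of_ne (by simp [hz]), if_neg hz, sub_zero, mul_inv_cancel]

theorem EC.exists_code {G : Type u} [Group G] (hG : EC G) {μ : Type} [Finite μ]
    {S : Set (μ → G)} (hS : S.Finite) : ∃ c : Cd μ → G, fs c = S := by
  classical
  obtain ⟨n, g, -, rfl⟩ := hS.fin_param
  let g' : ℕ → μ → G := fun m => if h : m - 1 < n then g ⟨m - 1, h⟩ else 1
  let Ω := ℤ × ZMod (n + 1)
  let K := (Ω → G) ⋊[mulAutArrow] Equiv.Perm Ω
  let f : G →* K := inl.comp (MonoidHom.mulSingle (fun _ : Ω => G) (0, 0))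
  have hf : Function.Injective f := fun a b h =>
    Pi.mulSingle_injective (M := fun _ : Ω => G) (0, 0) (inl_injective h)
  let F : μ → Ω → G := fun k p => if 0 ≤ p.1 then g' p.2.val k else 1
  let x : Cd μ → K := Sum.elim (fun b => cond b (inr (shS (n + 1))) (inr (shT (n + 1))))
    (fun k => inl (F k))
  have hD : Df true AllG.{u} (fun L _ (v : (Fin n × μ) ⊕ Cd μ → L) =>
      v (Sum.inr (Sum.inl false)) ^ (n + 1) = 1 ∧ ∀ i : Fin n,
        v (Sum.inr (Sum.inl false)) ^ (i.val + 1) ≠ 1 ∧ ∀ k : μ, v (Sum.inl (i, k)) =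
          dec (v (Sum.inr (Sum.inr k))) (v (Sum.inr (Sum.inl true)))
            (v (Sum.inr (Sum.inl false)) ^ (i.val + 1))) :=
    (Df.eq ((Tm.var _).pow _) Tm.one).and (Df.forall_fin fun i =>
      (Df.ne ((Tm.var _).pow _) Tm.one).and (Df.forall_fin fun k =>
        Df.eq (Tm.var _) (Tm.dec (Tm.var _) (Tm.var _) ((Tm.var _).pow _))))
  have hval : ∀ i : Fin n, (((i.val + 1 : ℕ) : ZMod (n + 1))).val = i.val + 1 := fun i =>
    ZMod.val_natCast_of_lt (by omega)
  obtain ⟨c, h1, h2⟩ := hG (Fin n × μ) (Cd μ) _ hD K f hf (fun p => g p.1 p.2) x (by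
    refine ⟨?_, fun i => ⟨?_, fun k => ?_⟩⟩
    · change (inr (shT (n + 1)) : K) ^ (n + 1) = 1
      rw [← map_pow]
      have : shT (n + 1) ^ (n + 1) = 1 := by
        ext p : 1
        rw [shT_pow, ZMod.natCast_self, add_zero]
        rfl
      rw [this, map_one]
    · change (inr (shT (n + 1)) : K) ^ (i.val + 1) ≠ 1
      rw [← map_pow, Ne, map_eq_one_iff _ inr_injective]
      intro h
      have h3 := shT_pow (n + 1) (i.val + 1) (0, 0)
      rw [h] at h3
      have h4 : (0 : ZMod (n + 1)) = 0 + ((i.val + 1 : ℕ) : ZMod (n + 1)) := congrArg Prod.snd h3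
      have h5 := hval i
      rw [zero_add] at h4
      rw [← h4, ZMod.val_zero] at h5
      omega
    · change f (g i k) = dec (inl (F k)) (inr (shS (n + 1))) ((inr (shT (n + 1)) : K) ^ (i.val + 1))
      have := dec_wreath (n + 1) (i.val + 1) (fun z => g' z.val k)
      simp only [hval, g', Nat.add_sub_cancel, i.2, dif_pos, Fin.eta] at this
      exact this.symm)
  simp only [Sum.elim_inr, Sum.elim_inl] at h1 h2
  have hfin : IsOfFinOrder (c (Sum.inl false)) :=
    isOfFinOrder_iff_pow_eq_one.2 ⟨n + 1, by omega, h1⟩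
  refine ⟨c, Set.ext fun x => ⟨?_, ?_⟩⟩
  · rintro ⟨-, y, hy, hy1, hx⟩
    rw [hfin.mem_zpowers_iff_mem_range_orderOf, Finset.mem_image] at hy
    obtain ⟨m, hm, rfl⟩ := hy
    have h3 : orderOf (c (Sum.inl false)) ≤ n + 1 := orderOf_le_of_pow_eq_one (by omega) h1
    rw [Finset.mem_range] at hm
    have hm0 : m ≠ 0 := by
      rintro rfl
      exact hy1 (pow_zero _)
    refine ⟨⟨m - 1, by omega⟩, funext fun k => ?_⟩
    rw [hx k, (h2 _).2 k]
    congr 2
    simp only
    omega
  · rintro ⟨i, rfl⟩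
    exact ⟨hfin, _, Subgroup.npow_mem_zpowers _ _, (h2 i).1, (h2 i).2⟩

theorem EC.infinite {G : Type u} [Group G] (hG : EC G) : Infinite G := by
  classical
  by_contra h
  rw [not_infinite_iff_finite] at h
  have hD : Df true AllG.{u} (fun L _ (v : Fin (Nat.card G) ⊕ Unit → L) =>
      ∀ i, v (Sum.inr ()) ≠ v (Sum.inl i)) := Df.forall_fin fun i => Df.ne (Tm.var _) (Tm.var _)
  obtain ⟨y, hy⟩ := hG _ Unit _ hD (G × Multiplicative (ZMod 2)) (MonoidHom.inl _ _)
    (fun a b h => by simpa using h) (Finite.equivFin G).symm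
    (fun _ => (1, Multiplicative.ofAdd 1)) (fun i h => by
      have := congrArg Prod.snd h
      simp only [Sum.elim_inr, Sum.elim_inl, Function.comp, MonoidHom.inl_apply] at this
      exact absurd this (by decide))
  exact hy (Finite.equivFin G (y ())) (by simp)

namespace Df

variable {α : Type}

theorem mem_zpowers {F E : ∀ (G : Type u) [Group G], (α → G) → G} (hF : Tm F) (hE : Tm E) :
    Df false EC (fun G _ v => F G v ∈ Subgroup.zpowers (E G v)) := by
  have h : Df false EC.{u} (fun G _ (v : Bool → G) =>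
      ∀ y : G, y * v true = v true * y → y * v false = v false * y) :=
    Df.all ((Df.eq ((Tm.var _).mul (Tm.var _)) ((Tm.var _).mul (Tm.var _))).imp
      (Df.eq ((Tm.var _).mul (Tm.var _)) ((Tm.var _).mul (Tm.var _))))
  refine (h.subst (fun G _ v b => cond b (E G v) (F G v)) (fun b => ?_)).congr
    (fun G _ hG v => hG.mem_zpowers_iff _ _)
  cases b
  · exact hF
  · exact hE

theorem isOfFinOrder {F : ∀ (G : Type u) [Group G], (α → G) → G} (hF : Tm F) :
    Df false EC (fun G _ v => IsOfFinOrder (F G v)) := by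
  have h : Df false EC.{u} (fun G _ (v : Unit → G) =>
      ¬ (v () ∉ Subgroup.zpowers (v () ^ 2) ∧ ∃ s : G, s * v () * s⁻¹ = v () ^ 2)) :=
    ((mem_zpowers (Tm.var _) ((Tm.var _).pow 2)).not.and
      (Df.ex (Df.eq (((Tm.var _).mul (Tm.var _)).mul (Tm.var _).inv) ((Tm.var _).pow 2)))).not
  exact (h.subst (fun G _ v _ => F G v) (fun _ => hF)).congr
    (fun G _ hG v => hG.isOfFinOrder_iff _)

theorem mem_fs {μ : Type} [Finite μ] {c : ∀ (G : Type u) [Group G], (α → G) → Cd μ → G}
    {x : ∀ (G : Type u) [Group G], (α → G) → μ → G} (hx : ∀ k, Tm (fun G _ v => x G v k))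
    (hc : ∀ k, Tm (fun G _ v => c G v k)) : Df false EC (fun G _ v => x G v ∈ fs (c G v)) := by
  have h : Df false EC.{u} (fun G _ (v : μ ⊕ Cd μ → G) =>
      (fun k => v (Sum.inl k)) ∈ fs (fun k => v (Sum.inr k))) :=
    (isOfFinOrder (Tm.var _)).and (Df.ex ((mem_zpowers (Tm.var _) (Tm.var _)).and
      ((Df.ne (Tm.var _) Tm.one).and (Df.forall_fin fun k =>
        Df.eq (Tm.var _) (Tm.dec (Tm.var _) (Tm.var _) (Tm.var _))))))
  refine h.subst (fun G _ v => Sum.elim (x G v) (c G v)) (fun b => ?_)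
  cases b with
  | inl k => exact hx k
  | inr k => exact hc k

end Df

end Pool.Agent.P.MP_6c8412_lc
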