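import Pool.Agent.P.MP_6c8412_lc.Oper

set_option linter.unusedVariables false
set_option linter.unusedSectionVars false

namespace Pool.Agent.P.MP_6c8412_lc

universe u

section unfold

variable {A : Type u} [NormedRing A] [StarRing A] [Module ℂ A] {n : ℕ} (x : Fin n → A)

theorem termVal_var (i : Fin n) : termVal x (.var i) = x i := rfl
theorem termVal_zero : termVal x .zero = 0 := rfl
theorem termVal_one : termVal x .one = 1 := rfl
theorem termVal_add (s t : OpTerm n) : termVal x (.add s t) = termVal x s + termVal x t := rfl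
theorem termVal_mul (s t : OpTerm n) : termVal x (.mul s t) = termVal x s * termVal x t := rfl
theorem termVal_adj (t : OpTerm n) : termVal x (.adj t) = star (termVal x t) := rfl
theorem termVal_smul (c : ℂ) (t : OpTerm n) : termVal x (.smul c t) = c • termVal x t := rfl

variable (M : Set A) (τ : A → ℂ)

theorem formVal_reTr (t : OpTerm n) : formVal M τ (.reTr t) x = (τ (termVal x t)).re := rfl
theorem formVal_imTr (t : OpTerm n) : formVal M τ (.imTr t) x = (τ (termVal x t)).im := rfl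
theorem formVal_dist2 (s t : OpTerm n) : formVal M τ (.dist2 s t) x =
    √(τ (star (termVal x s - termVal x t) * (termVal x s - termVal x t))).re := rfl
theorem formVal_conn (k : ℕ) (c : C(Fin k → ℝ, ℝ)) (φ : Fin k → OpForm n) :
    formVal M τ (.conn k c φ) x = c (fun i => formVal M τ (φ i) x) := rfl
theorem formVal_supB (r : ℕ) (φ : OpForm (n + 1)) : formVal M τ (.supB r φ) x =
    ⨆ y : {y : A // y ∈ M ∧ ‖y‖ ≤ r}, formVal M τ φ (Fin.cons y.1 x) := rfl
theorem formVal_infB (r : ℕ) (φ : OpForm (n + 1)) : formVal M τ (.infB r φ) x =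
    ⨅ y : {y : A // y ∈ M ∧ ‖y‖ ≤ r}, formVal M τ φ (Fin.cons y.1 x) := rfl

end unfold

/-- Tuples in a ball of the commutant. -/
def InB {G : Type u} [Group G] {n : ℕ} (R : ℝ) (x : Fin n → Op G) : Prop :=
  ∀ i, x i ∈ Mcom G ∧ ‖x i‖ ≤ R

/-- Tuples close in the trace norm. -/
def Near {G : Type u} [Group G] {n : ℕ} (δ : ℝ) (x y : Fin n → Op G) : Prop :=
  ∀ i, n2 (x i - y i) ≤ δ

/-- Value of a formula in the group von Neumann algebra. -/
noncomputable abbrev fv (G : Type u) [Group G] {n : ℕ} (φ : OpForm n) (x : Fin n → Op G) : ℝ :=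
  formVal (groupVN G) (groupTr G) φ x

theorem InB.mono {G : Type u} [Group G] {n : ℕ} {R R' : ℝ} {x : Fin n → Op G} (h : InB R x)
    (hR : R ≤ R') : InB R' x := fun i => ⟨(h i).1, (h i).2.trans hR⟩

theorem InB.cons {G : Type u} [Group G] {n : ℕ} {R r : ℝ} {x : Fin n → Op G} (h : InB R x)
    {y : Op G} (hy : y ∈ Mcom G) (hr : ‖y‖ ≤ r) :
    InB (max R r) (Fin.cons y x : Fin (n + 1) → Op G) := by
  intro i
  induction i using Fin.cases with
  | zero => exact ⟨hy, hr.trans (le_max_right _ _)⟩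
  | succ i => exact ⟨(h i).1, (h i).2.trans (le_max_left _ _)⟩

theorem Near.cons {G : Type u} [Group G] {n : ℕ} {δ : ℝ} {x x' : Fin n → Op G} (h : Near δ x x')
    {y y' : Op G} (hy : n2 (y - y') ≤ δ) :
    Near δ (Fin.cons y x : Fin (n + 1) → Op G) (Fin.cons y' x') := by
  intro i
  induction i using Fin.cases with
  | zero => exact hy
  | succ i => exact h i

theorem n2_zero {G : Type u} [Group G] : n2 (0 : Op G) = 0 := by simp [n2]

theorem Near.refl {G : Type u} [Group G] {n : ℕ} {δ : ℝ} (hδ : 0 ≤ δ) (x : Fin n → Op G) :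
    Near δ x x := fun i => by rw [sub_self, n2_zero]; exact hδ

theorem termVal_mem {G : Type u} [Group G] {n : ℕ} {x : Fin n → Op G} (hx : ∀ i, x i ∈ Mcom G)
    (t : OpTerm n) : termVal x t ∈ Mcom G := by
  induction t with
  | var i => exact hx i
  | zero => exact zero_mem _
  | one => exact one_mem _
  | add s t hs ht => exact add_mem hs ht
  | mul s t hs ht => exact mul_mem hs ht
  | adj t ht => exact star_mem ht
  | smul c t ht => exact SMulMemClass.smul_mem c ht

theorem term_bound {n : ℕ} (t : OpTerm n) (R : ℝ) : ∃ C : ℝ, 0 ≤ C ∧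
    ∀ (G : Type u) [Group G] (x : Fin n → Op G), InB R x → ‖termVal x t‖ ≤ C ∧
      ∀ (y : Fin n → Op G) (δ : ℝ), 0 ≤ δ → InB R y → Near δ x y →
        n2 (termVal x t - termVal y t) ≤ C * δ := by
  induction t with
  | var i =>
    exact ⟨max R 1, by positivity, fun G _ x hx => ⟨(hx i).2.trans (le_max_left _ _),
      fun y δ hδ hy h => (h i).trans (le_mul_of_one_le_left hδ (le_max_right _ _))⟩⟩
  | zero =>
    exact ⟨0, le_rfl, fun G _ x hx => ⟨by simp [termVal_zero], fun y δ hδ hy h => by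
      simp [termVal_zero, n2_zero]⟩⟩
  | one =>
    exact ⟨1, zero_le_one, fun G _ x hx => ⟨ContinuousLinearMap.norm_id_le, fun y δ hδ hy h => by
      simp [termVal_one, n2_zero, hδ]⟩⟩
  | add s t hs ht =>
    obtain ⟨C, hC, hs⟩ := hs
    obtain ⟨D, hD, ht⟩ := ht
    refine ⟨C + D, by positivity, fun G _ x hx => ⟨(norm_add_le _ _).trans
      (add_le_add (hs G x hx).1 (ht G x hx).1), fun y δ hδ hy h => ?_⟩⟩
    rw [termVal_add, termVal_add, add_sub_add_comm, add_mul]
    exact (n2_add_le _ _).trans (add_le_add ((hs G x hx).2 y δ hδ hy h) ((ht G x hx).2 y δ hδ hy h))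
  | mul s t hs ht =>
    obtain ⟨C, hC, hs⟩ := hs
    obtain ⟨D, hD, ht⟩ := ht
    refine ⟨2 * (C * D), by positivity, fun G _ x hx => ⟨?_, fun y δ hδ hy h => ?_⟩⟩
    · have := (norm_mul_le _ _).trans (mul_le_mul (hs G x hx).1 (ht G x hx).1 (norm_nonneg _) hC)
      rw [termVal_mul]
      nlinarith [mul_nonneg hC hD]
    · have e : termVal x (.mul s t) - termVal y (.mul s t) =
          termVal x s * (termVal x t - termVal y t) + (termVal x s - termVal y s) * termVal y t := by
        rw [termVal_mul, termVal_mul]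
        noncomm_ring
      have h1 := (n2_mul_le (termVal x s) _).trans
        (mul_le_mul (hs G x hx).1 ((ht G x hx).2 y δ hδ hy h) (n2_nonneg _) hC)
      have h2 := (n2_mul_le' (sub_mem (termVal_mem (fun i => (hx i).1) s)
        (termVal_mem (fun i => (hy i).1) s)) (termVal_mem (fun i => (hy i).1) t)).trans
        (mul_le_mul ((hs G x hx).2 y δ hδ hy h) (ht G y hy).1 (norm_nonneg _) (by positivity))
      rw [e]
      refine (n2_add_le _ _).trans ((add_le_add h1 h2).trans_eq (by ring))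
  | adj t ht =>
    obtain ⟨C, hC, ht⟩ := ht
    refine ⟨C, hC, fun G _ x hx => ⟨by rw [termVal_adj, norm_star]; exact (ht G x hx).1,
      fun y δ hδ hy h => ?_⟩⟩
    rw [termVal_adj, termVal_adj, ← star_sub, n2_star (sub_mem (termVal_mem (fun i => (hx i).1) t)
        (termVal_mem (fun i => (hy i).1) t))]
    exact (ht G x hx).2 y δ hδ hy h
  | smul c t ht =>
    obtain ⟨C, hC, ht⟩ := ht
    refine ⟨‖c‖ * C, by positivity, fun G _ x hx => ⟨?_, fun y δ hδ hy h => ?_⟩⟩
    · rw [termVal_smul, norm_smul]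
      exact mul_le_mul_of_nonneg_left (ht G x hx).1 (norm_nonneg _)
    · rw [termVal_smul, termVal_smul, ← smul_sub, n2_smul, mul_assoc]
      exact mul_le_mul_of_nonneg_left ((ht G x hx).2 y δ hδ hy h) (norm_nonneg _)

/-- Bounded and uniformly continuous on balls, uniformly in the group. -/
def Good {n : ℕ} (F : ∀ (G : Type u) [Group G], (Fin n → Op G) → ℝ) : Prop :=
  ∀ R : ℝ, (∃ C : ℝ, ∀ (G : Type u) [Group G] (x : Fin n → Op G), InB R x → |F G x| ≤ C) ∧
    ∀ ε > 0, ∃ δ > 0, ∀ (G : Type u) [Group G] (x y : Fin n → Op G), InB R x → InB R y →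
      Near δ x y → |F G x - F G y| ≤ ε

theorem good_of_term {n : ℕ} (t : OpTerm n) (f : ∀ (G : Type u) [Group G], Op G → ℝ)
    (h0 : ∀ (G : Type u) [Group G], f G 0 = 0)
    (hf : ∀ (G : Type u) [Group G] (S T : Op G), |f G S - f G T| ≤ n2 (S - T)) :
    Good (fun G _ x => f G (termVal x t)) := by
  intro R
  obtain ⟨C, hC, h⟩ := term_bound.{u} t R
  refine ⟨⟨C, fun G _ x hx => ?_⟩, fun ε hε => ⟨ε / (C + 1), by positivity,
    fun G _ x y hx hy hxy => ?_⟩⟩
  · have := hf G (termVal x t) 0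
    rw [h0, sub_zero, sub_zero] at this
    exact this.trans ((n2_le _).trans (h G x hx).1)
  · refine (hf G _ _).trans (((h G x hx).2 y _ (by positivity) hy hxy).trans ?_)
    rw [mul_div_assoc', div_le_iff₀ (by positivity)]
    nlinarith

theorem ball_nonempty (G : Type u) [Group G] (r : ℕ) :
    Nonempty {y : Op G // y ∈ groupVN G ∧ ‖y‖ ≤ r} :=
  ⟨⟨0, mem_groupVN_of_span (Submodule.zero_mem _), by simp⟩⟩

theorem abs_ciSup_le {ι : Type u} [Nonempty ι] {f : ι → ℝ} {C : ℝ} (h : ∀ i, |f i| ≤ C) :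
    BddAbove (Set.range f) ∧ |⨆ i, f i| ≤ C := by
  have hb : BddAbove (Set.range f) := ⟨C, by rintro _ ⟨i, rfl⟩; exact (abs_le.1 (h i)).2⟩
  obtain ⟨i⟩ := ‹Nonempty ι›
  exact ⟨hb, abs_le.2 ⟨(abs_le.1 (h i)).1.trans (le_ciSup hb i),
    ciSup_le fun j => (abs_le.1 (h j)).2⟩⟩

theorem abs_ciInf_le {ι : Type u} [Nonempty ι] {f : ι → ℝ} {C : ℝ} (h : ∀ i, |f i| ≤ C) :
    BddBelow (Set.range f) ∧ |⨅ i, f i| ≤ C := by
  have hb : BddBelow (Set.range f) := ⟨-C, by rintro _ ⟨i, rfl⟩; exact (abs_le.1 (h i)).1⟩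
  obtain ⟨i⟩ := ‹Nonempty ι›
  exact ⟨hb, abs_le.2 ⟨le_ciInf fun j => (abs_le.1 (h j)).1,
    (ciInf_le hb i).trans (abs_le.1 (h i)).2⟩⟩

theorem good_fv {n : ℕ} (φ : OpForm n) : Good.{u} (fun G _ x => fv G φ x) := by
  induction φ with
  | reTr t =>
    refine good_of_term t (fun G _ T => (groupTr G T).re) (fun G _ => by simp [groupTr_zero])
      (fun G _ S T => ?_)
    rw [← Complex.sub_re, ← groupTr_sub]
    exact (Complex.abs_re_le_norm _).trans (norm_groupTr_le _)
  | imTr t =>
    refine good_of_term t (fun G _ T => (groupTr G T).im) (fun G _ => by simp [groupTr_zero])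
      (fun G _ S T => ?_)
    rw [← Complex.sub_im, ← groupTr_sub]
    exact (Complex.abs_im_le_norm _).trans (norm_groupTr_le _)
  | dist2 s t =>
    have := good_of_term (.add s (.smul (-1) t)) (fun G _ T => n2 T) (fun G _ => n2_zero)
      (fun G _ S T => abs_norm_sub_norm_le _ _)
    have e : ∀ (G : Type u) [Group G] (x : _ → Op G), fv G (.dist2 s t) x =
        n2 (termVal x (.add s (.smul (-1) t))) := by
      intro G _ x
      rw [fv, formVal_dist2, groupTr_star_mul, Real.sqrt_sq (n2_nonneg _), termVal_add,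
        termVal_smul, neg_one_smul, sub_eq_add_neg]
    simp only [e]
    exact this
  | conn k c φ ih =>
    intro R
    choose C hC using fun i => (ih i R).1
    have hK : IsCompact (Set.pi Set.univ fun i => Set.Icc (-C i) (C i)) :=
      isCompact_univ_pi fun i => isCompact_Icc
    have hmem : ∀ (G : Type u) [Group G] (x : _ → Op G), InB R x →
        (fun i => fv G (φ i) x) ∈ Set.pi Set.univ fun i => Set.Icc (-C i) (C i) :=
      fun G _ x hx i _ => abs_le.1 (hC i G x hx)
    obtain ⟨D, hD⟩ := hK.exists_bound_of_continuousOn c.continuous.continuousOn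
    refine ⟨⟨D, fun G _ x hx => hD _ (hmem G x hx)⟩, fun ε hε => ?_⟩
    obtain ⟨η, hη, h1⟩ := Metric.uniformContinuousOn_iff_le.1
      (hK.uniformContinuousOn_of_continuous c.continuous.continuousOn) ε hε
    choose δ hδ h2 using fun i => (ih i R).2 η hη
    obtain ⟨δ', h3, h4⟩ : ∃ δ' > 0, ∀ i, δ' ≤ δ i := by
      rcases isEmpty_or_nonempty (Fin k) with _ | _
      · exact ⟨1, one_pos, fun i => isEmptyElim i⟩
      · obtain ⟨j, hj⟩ := Finite.exists_min δ
        exact ⟨δ j, hδ j, hj⟩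
    refine ⟨δ', h3, fun G _ x y hx hy hxy => ?_⟩
    exact h1 _ (hmem G x hx) _ (hmem G y hy) ((dist_pi_le_iff hη.le).2 fun i =>
      h2 i G x y hx hy fun j => (hxy j).trans (h4 i))
  | supB r φ ih =>
    intro R
    obtain ⟨⟨C, hC⟩, h⟩ := ih (max R r)
    have hb : ∀ (G : Type u) [Group G] (x : _ → Op G), InB R x →
        ∀ y : {y : Op G // y ∈ groupVN G ∧ ‖y‖ ≤ r}, |fv G φ (Fin.cons y.1 x)| ≤ C :=
      fun G _ x hx y => hC G _ (hx.cons (groupVN_subset y.2.1) y.2.2)
    refine ⟨⟨C, fun G _ x hx => ?_⟩, fun ε hε => ?_⟩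
    · have := ball_nonempty G r
      exact (abs_ciSup_le (hb G x hx)).2
    · obtain ⟨δ, hδ, h⟩ := h ε hε
      refine ⟨δ, hδ, fun G _ x y hx hy hxy => ?_⟩
      have := ball_nonempty G r
      have h1 : ∀ z : {y : Op G // y ∈ groupVN G ∧ ‖y‖ ≤ r},
          |fv G φ (Fin.cons z.1 x) - fv G φ (Fin.cons z.1 y)| ≤ ε := fun z =>
        h G _ _ (hx.cons (groupVN_subset z.2.1) z.2.2) (hy.cons (groupVN_subset z.2.1) z.2.2)
          (hxy.cons (by rw [sub_self, n2_zero]; exact hδ.le))
      have b1 := (abs_ciSup_le (hb G x hx)).1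
      have b2 := (abs_ciSup_le (hb G y hy)).1
      simp only [fv, formVal_supB]
      rw [abs_sub_le_iff, sub_le_iff_le_add, sub_le_iff_le_add]
      refine ⟨ciSup_le fun z => ?_, ciSup_le fun z => ?_⟩
      · have := le_ciSup b2 z
        have := (abs_le.1 (h1 z)).2
        simp only [fv] at *
        linarith
      · have := le_ciSup b1 z
        have := (abs_le.1 (h1 z)).1
        simp only [fv] at *
        linarith
  | infB r φ ih =>
    intro R
    obtain ⟨⟨C, hC⟩, h⟩ := ih (max R r)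
    have hb : ∀ (G : Type u) [Group G] (x : _ → Op G), InB R x →
        ∀ y : {y : Op G // y ∈ groupVN G ∧ ‖y‖ ≤ r}, |fv G φ (Fin.cons y.1 x)| ≤ C :=
      fun G _ x hx y => hC G _ (hx.cons (groupVN_subset y.2.1) y.2.2)
    refine ⟨⟨C, fun G _ x hx => ?_⟩, fun ε hε => ?_⟩
    · have := ball_nonempty G r
      exact (abs_ciInf_le (hb G x hx)).2
    · obtain ⟨δ, hδ, h⟩ := h ε hε
      refine ⟨δ, hδ, fun G _ x y hx hy hxy => ?_⟩
      have := ball_nonempty G r
      have h1 : ∀ z : {y : Op G // y ∈ groupVN G ∧ ‖y‖ ≤ r},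
          |fv G φ (Fin.cons z.1 x) - fv G φ (Fin.cons z.1 y)| ≤ ε := fun z =>
        h G _ _ (hx.cons (groupVN_subset z.2.1) z.2.2) (hy.cons (groupVN_subset z.2.1) z.2.2)
          (hxy.cons (by rw [sub_self, n2_zero]; exact hδ.le))
      have b1 := (abs_ciInf_le (hb G x hx)).1
      have b2 := (abs_ciInf_le (hb G y hy)).1
      simp only [fv, formVal_infB]
      rw [abs_sub_le_iff]
      refine ⟨sub_le_comm.1 (le_ciInf fun z => ?_), sub_le_comm.1 (le_ciInf fun z => ?_)⟩
      · have := ciInf_le b1 z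
        have := (abs_le.1 (h1 z)).2
        simp only [fv] at *
        linarith
      · have := ciInf_le b2 z
        have := (abs_le.1 (h1 z)).1
        simp only [fv] at *
        linarith

end Pool.Agent.P.MP_6c8412_lc
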