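import Mathlib

namespace Pool.Agent.P.MP_6c8412_lc

open FirstOrder

universe u

/-- Function symbols of the language of groups: unit, inverse, product. -/
inductive GrpSymb : ℕ → Type
  | unit : GrpSymb 0
  | inverse : GrpSymb 1
  | product : GrpSymb 2

/-- The first-order language of groups. -/
def grpLang : Language := ⟨GrpSymb, fun _ => Empty⟩

/-- A group as a structure for the language of groups. -/
noncomputable instance grpStruct (G : Type u) [Group G] : grpLang.Structure G where
  funMap := fun f => GrpSymb.rec (motive := fun n _ => (Fin n → G) → G)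
    (fun _ => 1) (fun v => (v 0)⁻¹) (fun v => v 0 * v 1) f
  RelMap := fun r _ => Empty.elim r

/-- `G` realizes every existential type over a finite parameter tuple `a` which is realized in
some group containing `G`. -/
def IsExSaturated (G : Type u) [Group G] : Prop :=
  ∀ (m n : ℕ) (a : Fin m → G) (p : Set (grpLang.Formula (Fin m ⊕ Fin n))),
    (∀ φ ∈ p, Language.BoundedFormula.IsExistential φ) →
    ∀ (K : Type u) [Group K] (f : G →* K), Function.Injective f →
      (∃ x : Fin n → K, ∀ φ ∈ p, φ.Realize (Sum.elim (f ∘ a) x)) →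
      ∃ y : Fin n → G, ∀ φ ∈ p, φ.Realize (Sum.elim a y)

/-- `G` embeds elementarily in an existentially saturated group. -/
def IsInfGeneric (G : Type u) [Group G] : Prop :=
  ∃ (K : Type u) (_ : Group K), IsExSaturated K ∧
    Nonempty (Language.ElementaryEmbedding grpLang G K)

/-- Terms of the language of tracial von Neumann algebras in `n` variables. -/
inductive OpTerm (n : ℕ) : Type
  | var : Fin n → OpTerm n
  | zero : OpTerm n
  | one : OpTerm n
  | add : OpTerm n → OpTerm n → OpTerm n
  | mul : OpTerm n → OpTerm n → OpTerm n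
  | adj : OpTerm n → OpTerm n
  | smul : ℂ → OpTerm n → OpTerm n

/-- Formulas of continuous logic for tracial von Neumann algebras with `n` free variables. -/
inductive OpForm : ℕ → Type
  | reTr {n : ℕ} : OpTerm n → OpForm n
  | imTr {n : ℕ} : OpTerm n → OpForm n
  | dist2 {n : ℕ} : OpTerm n → OpTerm n → OpForm n
  | conn {n : ℕ} (k : ℕ) : C(Fin k → ℝ, ℝ) → (Fin k → OpForm n) → OpForm n
  | supB {n : ℕ} : ℕ → OpForm (n + 1) → OpForm n
  | infB {n : ℕ} : ℕ → OpForm (n + 1) → OpForm n

/-- Value of a term. -/
noncomputable def termVal {A : Type u} [NormedRing A] [StarRing A] [Module ℂ A] {n : ℕ}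
    (x : Fin n → A) (t : OpTerm n) : A :=
  OpTerm.rec (motive := fun _ => A) x 0 1 (fun _ _ a b => a + b) (fun _ _ a b => a * b)
    (fun _ a => star a) (fun c _ a => c • a) t

/-- Value of a formula in the tracial algebra with underlying set `M` and trace `τ`; the
quantifiers range over the operator norm balls of `M`. -/
noncomputable def formVal {A : Type u} [NormedRing A] [StarRing A] [Module ℂ A]
    (M : Set A) (τ : A → ℂ) {n : ℕ} (φ : OpForm n) : (Fin n → A) → ℝ :=
  OpForm.rec (motive := fun n _ => (Fin n → A) → ℝ)
    (fun t x => (τ (termVal x t)).re)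
    (fun t x => (τ (termVal x t)).im)
    (fun s t x => √(τ (star (termVal x s - termVal x t) * (termVal x s - termVal x t))).re)
    (fun _ c _ F x => c (fun i => F i x))
    (fun r _ F x => ⨆ y : {y : A // y ∈ M ∧ ‖y‖ ≤ r}, F (Fin.cons y.1 x))
    (fun r _ F x => ⨅ y : {y : A // y ∈ M ∧ ‖y‖ ≤ r}, F (Fin.cons y.1 x)) φ

/-- The weak operator closure of the linear span of the bounded operators `U` which act on the
family `b` as a left translation. -/
def translVN {G E : Type u} [Group G] [NormedAddCommGroup E] [InnerProductSpace ℂ E]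
    (b : G → E) : Set (E →L[ℂ] E) :=
  {T | ContinuousLinearMapWOT.ofCLM T ∈ closure (ContinuousLinearMapWOT.ofCLM ''
    (Submodule.span ℂ {U : E →L[ℂ] E | ∃ g : G, ∀ h : G, U (b h) = b (g * h)} :
      Set (E →L[ℂ] E)))}

/-- Value of a sentence in that algebra, with the vector state at `b 1` as trace. -/
noncomputable def translVal {G E : Type u} [Group G] [NormedAddCommGroup E]
    [InnerProductSpace ℂ E] [CompleteSpace E] (b : G → E) (σ : OpForm 0) : ℝ :=
  formVal (translVN b) (fun T => inner ℂ (b 1) (T (b 1))) σ ![]

open Classical in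
/-- Value of a sentence in the group von Neumann algebra of `G`. -/
noncomputable def groupVal (G : Type u) [Group G] (σ : OpForm 0) : ℝ :=
  translVal (fun g : G => (lp.single 2 g 1 : lp (fun _ : G => ℂ) 2)) σ

end Pool.Agent.P.MP_6c8412_lc
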