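import Pool.Agent.P.MP_6c8412_lc.Logic

set_option linter.unusedVariables false

namespace Pool.Agent.P.MP_6c8412_lc

open FirstOrder Language

universe u v

theorem exists_conj_ext {C : Type v} {G : Type u} [Group C] [Group G] (i j : C →* G)
    (hi : Function.Injective i) (hj : Function.Injective j) :
    ∃ (K : Type u) (_ : Group K) (f : G →* K) (s : K), Function.Injective f ∧
      ∀ c, s * f (i c) * s⁻¹ = f (j c) := by
  let φ : i.range ≃* j.range := (MonoidHom.ofInjective hi).symm.trans (MonoidHom.ofInjective hj)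
  refine ⟨HNNExtension G i.range j.range φ, inferInstance, HNNExtension.of, HNNExtension.t,
    HNNExtension.of_injective φ, fun c => ?_⟩
  have h := HNNExtension.equiv_eq_conj (φ := φ) (MonoidHom.ofInjective hi c)
  have e : (φ (MonoidHom.ofInjective hi c) : G) = j c := by
    simp [φ, MonoidHom.ofInjective_apply]
  rw [e, MonoidHom.ofInjective_apply] at h
  exact h.symm

theorem exists_amalgam {C : Type v} {A B : Type u} [Group C] [Group A] [Group B] (i : C →* A)
    (j : C →* B) (hi : Function.Injective i) (hj : Function.Injective j) :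
    ∃ (K : Type u) (_ : Group K) (f : A →* K) (g : B →* K), Function.Injective f ∧
      Function.Injective g ∧ ∀ c, f (i c) = g (j c) := by
  obtain ⟨K, _, f, s, hf, hs⟩ := exists_conj_ext ((MonoidHom.inl A B).comp i)
    ((MonoidHom.inr A B).comp j) (fun a b h => hi (by simpa using h))
    (fun a b h => hj (by simpa using h))
  refine ⟨K, inferInstance, (MulAut.conj s).toMonoidHom.comp (f.comp (MonoidHom.inl A B)),
    f.comp (MonoidHom.inr A B), ?_, ?_, fun c => ?_⟩
  · intro a b h
    have h1 : f (a, 1) = f (b, 1) := (MulAut.conj s).injective h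
    simpa using hf h1
  · intro a b h
    have h1 : f (1, a) = f (1, b) := h
    simpa using hf h1
  · exact hs c

theorem IsExSaturated.ec {G : Type u} [Group G] (h : IsExSaturated G) : EC G := by
  intro μ ι _ _ R hR K _ f hf a x hx
  obtain ⟨m, ⟨e⟩⟩ := Finite.exists_equiv_fin μ
  obtain ⟨n, ⟨e'⟩⟩ := Finite.exists_equiv_fin ι
  obtain ⟨φ, h1, h2⟩ := hR.relabel (Sum.map e e')
  obtain ⟨y, hy⟩ := h m n (a ∘ e.symm) {φ} (fun ψ hψ => by
    rw [Set.mem_singleton_iff.1 hψ]; exact (h1 rfl).isExistential) K f hf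
    ⟨x ∘ e'.symm, fun ψ hψ => by
      rw [Set.mem_singleton_iff.1 hψ, ← h2 K trivial]
      have : Sum.elim (f ∘ a ∘ e.symm) (x ∘ e'.symm) ∘ Sum.map e e' = Sum.elim (f ∘ a) x := by
        funext z; cases z <;> simp
      beta_reduce
      rw [this]; exact hx⟩
  refine ⟨y ∘ e', ?_⟩
  have h3 := (h2 G trivial _).2 (hy φ rfl)
  have : Sum.elim (a ∘ e.symm) y ∘ Sum.map e e' = Sum.elim a (y ∘ e') := by
    funext z; cases z <;> simp
  beta_reduce at h3
  rwa [this] at h3

/-- An elementary embedding as a group homomorphism. -/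
noncomputable def homOf {G K : Type u} [Group G] [Group K] (e : G ↪ₑ[grpLang] K) : G →* K :=
  MonoidHom.mk' e (fun a b => e.map_fun GrpSymb.product ![a, b])

theorem IsInfGeneric.ec {G : Type u} [Group G] (h : IsInfGeneric G) : EC G := by
  obtain ⟨S, _, hS, ⟨e⟩⟩ := h
  intro μ ι _ _ R hR K _ f hf a x hx
  obtain ⟨L, _, f1, f2, hf1, hf2, hc⟩ := exists_amalgam f (homOf e) hf e.injective
  have h1 : R L (Sum.elim (f2 ∘ (e ∘ a)) (f1 ∘ x)) := by
    have := (hR.map f1 hf1 _).2 hx
    have e1 : f1 ∘ Sum.elim (f ∘ a) x = Sum.elim (f2 ∘ (e ∘ a)) (f1 ∘ x) := by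
      funext z
      cases z with
      | inl z => exact hc (a z)
      | inr z => rfl
    rwa [e1] at this
  obtain ⟨y, hy⟩ := hS.ec μ ι R hR L f2 hf2 (e ∘ a) (f1 ∘ x) h1
  obtain ⟨φ, -, h2⟩ := hR
  have h3 : (φ.iExs ι).Realize (e ∘ a) := by
    rw [Formula.realize_iExs]
    exact ⟨y, (h2 S trivial _).1 hy⟩
  rw [e.map_formula, Formula.realize_iExs] at h3
  obtain ⟨z, hz⟩ := h3
  exact ⟨z, (h2 G trivial _).2 hz⟩

/-- Two tuples satisfy the same equations. -/
def SameEq {G H : Type u} [Group G] [Group H] {n : ℕ} (x : Fin n → G) (y : Fin n → H) : Prop :=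
  ∀ w : FreeGroup (Fin n), FreeGroup.lift x w = 1 ↔ FreeGroup.lift y w = 1

theorem SameEq.symm {G H : Type u} [Group G] [Group H] {n : ℕ} {x : Fin n → G} {y : Fin n → H}
    (h : SameEq x y) : SameEq y x := fun w => (h w).symm

theorem SameEq.forth {G H : Type u} [Group G] [Group H] (hH : IsExSaturated H) {n : ℕ}
    {x : Fin n → G} {y : Fin n → H} (h : SameEq x y) (a : G) :
    ∃ b : H, SameEq (Fin.snoc x a : Fin (n + 1) → G) (Fin.snoc y b : Fin (n + 1) → H) := by
  have hk : (FreeGroup.lift x).ker = (FreeGroup.lift y).ker := by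
    ext w; exact h w
  let i := QuotientGroup.kerLift (FreeGroup.lift x)
  let j : FreeGroup (Fin n) ⧸ (FreeGroup.lift x).ker →* H :=
    QuotientGroup.lift _ (FreeGroup.lift y) (fun w hw => (h w).1 hw)
  have hj : Function.Injective j := by
    rw [injective_iff_map_eq_one]
    intro c hc
    induction c using QuotientGroup.induction_on with
    | H w => exact (QuotientGroup.eq_one_iff w).2 ((h w).2 hc)
  obtain ⟨K, _, f, g, hf, hg, hc⟩ := exists_amalgam i j (QuotientGroup.kerLift_injective _) hj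
  have hxy : f ∘ x = g ∘ y := by
    funext k
    have := hc (QuotientGroup.mk (FreeGroup.of k))
    simpa [i, j] using this
  have key : ∀ w : FreeGroup (Fin (n + 1)), Df true AllG.{u}
      (fun L _ (v : Fin n ⊕ Fin 1 → L) =>
        (FreeGroup.lift (v ∘ finSumFinEquiv.symm) w = 1 ↔
          FreeGroup.lift (Fin.snoc x a : Fin (n + 1) → G) w = 1)) := fun w =>
    ((Df.eq (Tm.lift w) Tm.one).relabel _).iff (Df.const _)
  choose φ h1 h2 using key
  have hs : ∀ {L : Type u} (z : Fin n → L) (c : Fin 1 → L),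
      Sum.elim z c ∘ finSumFinEquiv.symm = (Fin.snoc z (c 0) : Fin (n + 1) → L) := by
    intro L z c
    funext k
    induction k using Fin.lastCases with
    | last =>
      have : finSumFinEquiv.symm (Fin.last n) = (Sum.inr 0 : Fin n ⊕ Fin 1) :=
        finSumFinEquiv_symm_last
      simp [this]
    | cast k =>
      have : finSumFinEquiv.symm (Fin.castSucc k) = (Sum.inl k : Fin n ⊕ Fin 1) :=
        finSumFinEquiv_symm_apply_castAdd k
      simp [this]
  obtain ⟨b, hb⟩ := hH n 1 y (Set.range φ)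
    (by rintro _ ⟨w, rfl⟩; exact (h1 w rfl).isExistential) K g hg ⟨fun _ => f a, by
      rintro _ ⟨w, rfl⟩
      rw [← h2 w K trivial]
      beta_reduce
      rw [hs, ← hxy, ← Fin.comp_snoc]
      have : FreeGroup.lift (f ∘ (Fin.snoc x a : Fin (n + 1) → G)) w =
          f (FreeGroup.lift (Fin.snoc x a : Fin (n + 1) → G) w) := by
        have : FreeGroup.lift (f ∘ (Fin.snoc x a : Fin (n + 1) → G)) =
            f.comp (FreeGroup.lift (Fin.snoc x a : Fin (n + 1) → G)) := by
          ext k; simp
        rw [this]; rfl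
      rw [this, map_eq_one_iff f hf]⟩
  refine ⟨b 0, fun w => ?_⟩
  have := (h2 w H trivial _).2 (hb _ ⟨w, rfl⟩)
  beta_reduce at this
  rw [hs] at this
  exact this.symm

theorem realize_iff_of_sameEq {G H : Type u} [Group G] [Group H] (hG : IsExSaturated G)
    (hH : IsExSaturated H) {α : Type} [IsEmpty α] {n : ℕ} (φ : grpLang.BoundedFormula α n)
    (v : α → G) (v' : α → H) (x : Fin n → G) (y : Fin n → H) (h : SameEq x y) :
    φ.Realize v x ↔ φ.Realize v' y := by
  induction φ with
  | falsum => exact Iff.rfl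
  | @equal n t s =>
    obtain ⟨w, hw⟩ := term_eq_lift.{u} (t.relabel (Sum.elim isEmptyElim id))
    obtain ⟨w', hw'⟩ := term_eq_lift.{u} (s.relabel (Sum.elim isEmptyElim id))
    have e : ∀ {L : Type u} (r : α → L) (z : Fin n → L),
        z ∘ Sum.elim isEmptyElim id = Sum.elim r z := by
      intro L r z
      funext k
      cases k with
      | inl k => exact isEmptyElim k
      | inr k => rfl
    have a1 := hw G x
    have a2 := hw H y
    have a3 := hw' G x
    have a4 := hw' H y
    rw [Term.realize_relabel, e v] at a1 a3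
    rw [Term.realize_relabel, e v'] at a2 a4
    change Term.realize _ t = Term.realize _ s ↔ Term.realize _ t = Term.realize _ s
    rw [a1, a2, a3, a4, ← mul_inv_eq_one, ← map_inv, ← map_mul, h, map_mul, map_inv,
      mul_inv_eq_one]
  | rel r _ => exact Empty.elim r
  | imp φ ψ h1 h2 =>
    rw [BoundedFormula.realize_imp, BoundedFormula.realize_imp, h1 x y h, h2 x y h]
  | all φ ih =>
    rw [BoundedFormula.realize_all, BoundedFormula.realize_all]
    constructor
    · intro h1 b
      obtain ⟨a, ha⟩ := h.symm.forth hG b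
      exact (ih _ _ ha.symm).1 (h1 a)
    · intro h1 a
      obtain ⟨b, hb⟩ := h.forth hH a
      exact (ih _ _ hb).2 (h1 b)

theorem Df.transfer {α : Type} [IsEmpty α] {R : Pr.{u} α} (hR : Df false EC R)
    {G H : Type u} [Group G] [Group H] (hG : IsInfGeneric G) (hH : IsInfGeneric H)
    (v : α → G) (v' : α → H) : R G v ↔ R H v' := by
  obtain ⟨φ, -, h⟩ := hR
  rw [h G hG.ec, h H hH.ec]
  obtain ⟨S, _, hS, ⟨e⟩⟩ := hG
  obtain ⟨S', _, hS', ⟨e'⟩⟩ := hH
  rw [← e.map_formula, ← e'.map_formula]
  refine realize_iff_of_sameEq hS hS' φ _ _ _ _ (fun w => ?_)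
  rw [Subsingleton.elim w 1, map_one, map_one]
  simp

end Pool.Agent.P.MP_6c8412_lc
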