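import Pool.Agent.P.MP_6c8412_lc.Oper

set_option linter.unusedVariables false
set_option linter.unusedSectionVars false

namespace Pool.Agent.P.MP_6c8412_lc

universe u

section abstract

variable {A : Type u} [CStarAlgebra A] [PartialOrder A] [StarOrderedRing A]

theorem exists_inv_one_add {b : A} (hb : 0 ≤ b) :
    ∃ V : A, V * (1 + b) = 1 ∧ (1 + b) * V = 1 ∧ star V = V ∧
      ∀ S : StarSubalgebra ℂ A, IsClosed (S : Set A) → b ∈ S → V ∈ S := by
  have hu : IsUnit (1 + b) := CStarAlgebra.isUnit_of_le 1 (le_add_of_nonneg_right hb)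
  have h1 : (↑hu.unit⁻¹ : A) * (1 + b) = 1 := hu.val_inv_mul
  have h2 : (1 + b) * (↑hu.unit⁻¹ : A) = 1 := hu.mul_val_inv
  have hs : star (1 + b) = 1 + b := by rw [star_add, star_one, (IsSelfAdjoint.of_nonneg hb).star_eq]
  refine ⟨_, h1, h2, ?_, fun S hS hbS => ?_⟩
  · have h3 := congrArg star h2
    rw [star_mul, hs, star_one] at h3
    exact left_inv_eq_right_inv h3 h2
  · have h4 : IsUnit (⟨1 + b, add_mem (one_mem S) hbS⟩ : S) := S.coe_isUnit.1 hu
    obtain ⟨W, hW⟩ := h4.exists_left_inv
    have h5 : (W : A) * (1 + b) = 1 := congrArg Subtype.val hW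
    rw [← left_inv_eq_right_inv h5 h2]
    exact W.2

theorem norm_le_one_of_star_mul {x : A} (h : x * star x ≤ 1) : ‖x‖ ≤ 1 := by
  have h1 := (CStarAlgebra.norm_le_one_iff_of_nonneg _ (mul_star_self_nonneg x)).2 h
  rw [CStarRing.norm_self_mul_star] at h1
  nlinarith [norm_nonneg x]

theorem exists_resolvent (a : A) :
    ∃ V : A, V * (1 + a * star a) = 1 ∧ ‖V‖ ≤ 1 ∧ ‖(2 : ℂ) • (V * a)‖ ≤ 1 ∧
      ∀ S : StarSubalgebra ℂ A, IsClosed (S : Set A) → a ∈ S → V ∈ S := by
  have hb := mul_star_self_nonneg a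
  obtain ⟨V, h1, h2, h3, h4⟩ := exists_inv_one_add hb
  set b := a * star a with hbdef
  have hbs : star b = b := (IsSelfAdjoint.of_nonneg hb).star_eq
  have e1 : V * ((1 + b) * (1 + b)) * V = 1 := by
    rw [← mul_assoc, h1, one_mul, h2]
  refine ⟨V, h1, norm_le_one_of_star_mul ?_, norm_le_one_of_star_mul ?_,
    fun S hS ha => h4 S hS (mul_mem ha (star_mem ha))⟩
  · rw [← sub_nonneg, h3]
    have h5 : 0 ≤ b + b + star b * b := add_nonneg (add_nonneg hb hb) (star_mul_self_nonneg b)
    have h6 := star_left_conjugate_nonneg h5 V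
    rw [h3, hbs] at h6
    refine h6.trans_eq ?_
    rw [← e1]
    noncomm_ring
  · rw [← sub_nonneg]
    have h6 := star_left_conjugate_nonneg (star_mul_self_nonneg (1 - b)) V
    rw [h3, star_sub, star_one, hbs] at h6
    refine h6.trans_eq ?_
    have e2 : ((2 : ℂ) • (V * a)) * star ((2 : ℂ) • (V * a)) = 4 * (V * b * V) := by
      rw [two_smul, star_add, star_mul, h3, hbdef]
      noncomm_ring
    rw [e2]
    nth_rewrite 3 [← e1]
    noncomm_ring

theorem exists_preimage {T : A} (hT : ‖T‖ ≤ 1) :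
    ∃ S W : A, (1 + star S * S) * W = 1 ∧ (2 : ℂ) • (S * W) = T ∧
      ∀ x : A, Commute x T → Commute x (star T) → Commute x S ∧ Commute x W := by
  have h0 : 0 ≤ 1 - star T * T := by
    rw [sub_nonneg, ← CStarAlgebra.norm_le_one_iff_of_nonneg _ (star_mul_self_nonneg T),
      CStarRing.norm_star_mul_self]
    nlinarith [norm_nonneg T]
  set R := CFC.sqrt (1 - star T * T) with hR
  have hR0 : 0 ≤ R := CFC.sqrt_nonneg _
  have hR2 : R * R = 1 - star T * T := CFC.sqrt_mul_sqrt_self _ h0
  obtain ⟨P, h1, h2, h3, -⟩ := exists_inv_one_add hR0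
  refine ⟨T * P, (2 : ℂ)⁻¹ • (1 + R), ?_, ?_, fun x hx hx' => ?_⟩
  · have e1 : star (T * P) * (T * P) = P * (1 - R) := by
      have : star T * T = (1 - R) * (1 + R) := by
        rw [← sub_sub_cancel 1 (star T * T), ← hR2]
        noncomm_ring
      rw [star_mul, h3, mul_assoc, ← mul_assoc (star T), this, mul_assoc (1 - R), h2, mul_one]
    have e2 : 1 + P * (1 - R) = (2 : ℂ) • P := by
      nth_rewrite 1 [← h1]
      rw [two_smul]
      noncomm_ring
    rw [e1, e2, smul_mul_smul_comm, h1]
    simp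
  · rw [mul_smul_comm, smul_smul, mul_assoc, h1]
    simp
  · have c1 : Commute x R :=
      (Commute.cfcₙ_nnreal ((Commute.one_right x).sub_right (hx'.mul_right hx)).symm _).symm
    have c2 : Commute x (1 + R) := (Commute.one_right x).add_right c1
    have c3 : Commute x P := by
      calc x * P = P * (1 + R) * x * P := by rw [h1, one_mul]
        _ = P * x * ((1 + R) * P) := by rw [mul_assoc P, ← c2.eq]; noncomm_ring
        _ = P * x := by rw [h2, mul_one]
    exact ⟨hx.mul_right c3, c2.smul_right _⟩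

end abstract

variable {G : Type u} [Group G]

variable (G) in
/-- The span of the left translations as a star subalgebra. -/
noncomputable def spanAlg : StarSubalgebra ℂ (Op G) where
  carrier := Submodule.span ℂ (Set.range (lam (G := G)))
  mul_mem' := fun {a b} ha hb => by
    induction ha using Submodule.span_induction with
    | mem x hx =>
      induction hb using Submodule.span_induction with
      | mem y hy =>
        obtain ⟨g, rfl⟩ := hx
        obtain ⟨h, rfl⟩ := hy
        exact Submodule.subset_span ⟨g * h, lam_mul g h⟩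
      | zero => rw [mul_zero]; exact Submodule.zero_mem _
      | add y z _ _ hy hz => rw [mul_add]; exact Submodule.add_mem _ hy hz
      | smul c y _ hy => rw [mul_smul_comm]; exact Submodule.smul_mem _ _ hy
    | zero => rw [zero_mul]; exact Submodule.zero_mem _
    | add y z _ _ hy hz => rw [add_mul]; exact Submodule.add_mem _ hy hz
    | smul c y _ hy => rw [smul_mul_assoc]; exact Submodule.smul_mem _ _ hy
  add_mem' := fun ha hb => Submodule.add_mem _ ha hb
  algebraMap_mem' := fun r => by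
    rw [Algebra.algebraMap_eq_smul_one]
    exact Submodule.smul_mem _ _ (Submodule.subset_span ⟨1, lam_one⟩)
  star_mem' := fun {a} ha => by
    induction ha using Submodule.span_induction with
    | mem x hx =>
      obtain ⟨g, rfl⟩ := hx
      exact Submodule.subset_span ⟨g⁻¹, (star_lam g).symm⟩
    | zero => rw [star_zero]; exact Submodule.zero_mem _
    | add y z _ _ hy hz => rw [star_add]; exact Submodule.add_mem _ hy hz
    | smul c y _ hy => rw [star_smul]; exact Submodule.smul_mem _ _ hy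

theorem kaplansky {T : Op G} (hM : T ∈ Mcom G) (hT : ‖T‖ ≤ 1) {ε : ℝ} (hε : 0 < ε) :
    ∃ b ∈ closure (Submodule.span ℂ (Set.range (lam (G := G))) : Set (Op G)),
      ‖b‖ ≤ 1 ∧ n2 (b - T) < ε := by
  obtain ⟨S, W, h1, h2, h3⟩ := exists_preimage hT
  have hS : S ∈ Mcom G := fun g => (h3 _ (hM g) (star_mem hM g)).1
  have hW : W ∈ Mcom G := fun g => (h3 _ (hM g) (star_mem hM g)).2
  have hC : 0 < 2 * ‖W‖ + ‖S * W‖ + 1 := by positivity
  obtain ⟨_, ⟨a, ha, rfl⟩, hd⟩ := Metric.mem_closure_iff.1 (mem_closure_span_dl (S (dl 1))) _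
    (div_pos hε hC)
  have haM := span_le_Mcom ha
  have hd' : n2 (a - S) < ε / (2 * ‖W‖ + ‖S * W‖ + 1) := by
    rw [dist_comm, dist_eq_norm] at hd
    exact hd
  obtain ⟨V, v1, v2, v3, v4⟩ := exists_resolvent a
  have hV : V ∈ Mcom G := v4 _ isClosed_Mcom haM
  have hcl : V ∈ (spanAlg G).topologicalClosure :=
    v4 _ (StarSubalgebra.isClosed_topologicalClosure _) (subset_closure ha)
  refine ⟨(2 : ℂ) • (V * a), ?_, v3, ?_⟩
  · exact SMulMemClass.smul_mem (2 : ℂ) (mul_mem hcl (subset_closure ha :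
      a ∈ (spanAlg G).topologicalClosure))
  · have e : (2 : ℂ) • (V * a) - T = (2 : ℂ) • (V * ((a - S) * W)) +
        ((2 : ℂ) • (V * a)) * (star (S - a) * (S * W)) := by
      have e1 : V * a = V * a * ((1 + star S * S) * W) := by rw [h1, mul_one]
      have e2 : S * W = V * (1 + a * star a) * (S * W) := by rw [v1, one_mul]
      rw [← h2, star_sub]
      nth_rewrite 1 [e1, e2]
      simp only [two_smul]
      noncomm_ring
    have haS : a - S ∈ Mcom G := sub_mem haM hS
    have hSa : S - a ∈ Mcom G := sub_mem hS haM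
    have hn := n2_nonneg (a - S)
    have b1 : n2 ((2 : ℂ) • (V * ((a - S) * W))) ≤ 2 * (n2 (a - S) * ‖W‖) := by
      rw [n2_smul]
      have := (n2_mul_le V ((a - S) * W)).trans (mul_le_mul v2 (n2_mul_le' haS hW)
        (n2_nonneg _) zero_le_one)
      simpa using this
    have b2 : n2 (((2 : ℂ) • (V * a)) * (star (S - a) * (S * W))) ≤ n2 (a - S) * ‖S * W‖ := by
      have := (n2_mul_le ((2 : ℂ) • (V * a)) (star (S - a) * (S * W))).trans
        (mul_le_mul v3 (n2_mul_le' (star_mem hSa) (mul_mem hS hW)) (n2_nonneg _) zero_le_one)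
      rwa [one_mul, n2_star hSa, n2_sub_comm] at this
    rw [e]
    refine (n2_add_le _ _).trans_lt ?_
    rw [lt_div_iff₀ hC] at hd'
    nlinarith

end Pool.Agent.P.MP_6c8412_lc
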