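import Pool.Agent.P.MP_6c8412_lc.Defs

set_option linter.unusedVariables false

namespace Pool.Agent.P.MP_6c8412_lc

open FirstOrder Language

universe u

/-- Predicates on tuples, uniformly in the group. -/
abbrev Pr (α : Type) : Type (u + 1) := ∀ (G : Type u) [Group G], (α → G) → Prop

/-- Classes of groups. -/
abbrev Cls : Type (u + 1) := ∀ (G : Type u) [Group G], Prop

/-- Functions given by a term. -/
def Tm {α : Type} (F : ∀ (G : Type u) [Group G], (α → G) → G) : Prop :=
  ∃ t : grpLang.Term α, ∀ (G : Type u) [Group G] (v : α → G), F G v = t.realize v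

theorem funMap_unit (G : Type u) [Group G] (v : Fin 0 → G) :
    Structure.funMap (L := grpLang) GrpSymb.unit v = 1 := rfl

theorem funMap_inverse (G : Type u) [Group G] (v : Fin 1 → G) :
    Structure.funMap (L := grpLang) GrpSymb.inverse v = (v 0)⁻¹ := rfl

theorem funMap_product (G : Type u) [Group G] (v : Fin 2 → G) :
    Structure.funMap (L := grpLang) GrpSymb.product v = v 0 * v 1 := rfl

namespace Tm

variable {α β : Type}

theorem var (a : α) : Tm.{u} (fun _ _ (v : α → _) => v a) :=
  ⟨Term.var a, fun _ _ _ => rfl⟩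

theorem one : Tm.{u} (fun _ _ (_ : α → _) => 1) :=
  ⟨Term.func (L := grpLang) GrpSymb.unit ![], fun _ _ _ => rfl⟩

theorem inv {F : ∀ (G : Type u) [Group G], (α → G) → G} (h : Tm F) :
    Tm (fun G _ v => (F G v)⁻¹) := by
  obtain ⟨t, ht⟩ := h
  exact ⟨Term.func (L := grpLang) GrpSymb.inverse ![t], fun G _ v => by beta_reduce; rw [ht]; rfl⟩

theorem mul {F E : ∀ (G : Type u) [Group G], (α → G) → G} (h : Tm F) (h' : Tm E) :
    Tm (fun G _ v => F G v * E G v) := by
  obtain ⟨t, ht⟩ := h
  obtain ⟨s, hs⟩ := h'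
  exact ⟨Term.func (L := grpLang) GrpSymb.product ![t, s], fun G _ v => by
    beta_reduce; rw [ht, hs]; rfl⟩

theorem congr {F E : ∀ (G : Type u) [Group G], (α → G) → G} (h : Tm F)
    (e : ∀ (G : Type u) [Group G] (v : α → G), E G v = F G v) : Tm E := by
  obtain ⟨t, ht⟩ := h
  exact ⟨t, fun G _ v => (e G v).trans (ht G v)⟩

theorem pow {F : ∀ (G : Type u) [Group G], (α → G) → G} (h : Tm F) (n : ℕ) :
    Tm (fun G _ v => F G v ^ n) := by
  induction n with
  | zero => exact one.congr (fun G _ v => pow_zero _)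
  | succ n ih => exact (ih.mul h).congr (fun G _ v => pow_succ _ _)

theorem lift (w : FreeGroup α) : Tm.{u} (fun _ _ (v : α → _) => FreeGroup.lift v w) := by
  induction w using FreeGroup.induction_on with
  | C1 => exact one.congr (fun G _ v => map_one _)
  | of a => exact (var a).congr (fun G _ v => FreeGroup.lift_apply_of)
  | inv_of a ih => exact ih.inv.congr (fun G _ v => map_inv _ _)
  | mul a b ha hb => exact (ha.mul hb).congr (fun G _ v => map_mul _ _ _)

end Tm

theorem term_eq_lift {α : Type} (t : grpLang.Term α) :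
    ∃ w : FreeGroup α, ∀ (G : Type u) [Group G] (v : α → G),
      t.realize v = FreeGroup.lift v w := by
  induction t with
  | var a => exact ⟨FreeGroup.of a, fun G _ v => by simp⟩
  | func f ts ih =>
    choose w hw using ih
    cases f with
    | unit => exact ⟨1, fun G _ v => by rw [map_one]; rfl⟩
    | inverse => exact ⟨(w 0)⁻¹, fun G _ v => by rw [map_inv, ← hw]; rfl⟩
    | product => exact ⟨w 0 * w 1, fun G _ v => by rw [map_mul, ← hw, ← hw]; rfl⟩

/-- Predicates uniformly definable in the groups of the class `C` (without quantifiers if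
`b` is true). -/
def Df (b : Bool) (C : Cls.{u}) {α : Type} (R : Pr.{u} α) : Prop :=
  ∃ φ : grpLang.Formula α, (b = true → BoundedFormula.IsQF φ) ∧
    ∀ (G : Type u) [Group G], C G → ∀ v : α → G, R G v ↔ φ.Realize v

namespace Df

variable {b : Bool} {C : Cls.{u}} {α β : Type}

theorem congr {R S : Pr.{u} α} (h : Df b C R)
    (e : ∀ (G : Type u) [Group G], C G → ∀ v : α → G, S G v ↔ R G v) : Df b C S := by
  obtain ⟨φ, h1, h2⟩ := h
  exact ⟨φ, h1, fun G _ hG v => (e G hG v).trans (h2 G hG v)⟩

theorem eq {F E : ∀ (G : Type u) [Group G], (α → G) → G} (h : Tm F) (h' : Tm E) :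
    Df b C (fun G _ v => F G v = E G v) := by
  obtain ⟨t, ht⟩ := h
  obtain ⟨s, hs⟩ := h'
  exact ⟨Term.equal t s, fun _ => (BoundedFormula.IsAtomic.equal _ _).isQF, fun G _ _ v => by
    beta_reduce; rw [Formula.realize_equal, ht, hs]⟩

theorem not {R : Pr.{u} α} (h : Df b C R) : Df b C (fun G _ v => ¬ R G v) := by
  obtain ⟨φ, h1, h2⟩ := h
  exact ⟨φ.not, fun hb => (h1 hb).not, fun G _ hG v => by
    beta_reduce; rw [Formula.realize_not, h2 G hG]⟩

theorem ne {F E : ∀ (G : Type u) [Group G], (α → G) → G} (h : Tm F) (h' : Tm E) :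
    Df b C (fun G _ v => F G v ≠ E G v) := (eq h h').not

theorem and {R S : Pr.{u} α} (h : Df b C R) (h' : Df b C S) :
    Df b C (fun G _ v => R G v ∧ S G v) := by
  obtain ⟨φ, h1, h2⟩ := h
  obtain ⟨ψ, h3, h4⟩ := h'
  exact ⟨φ ⊓ ψ, fun hb => (h1 hb).inf (h3 hb), fun G _ hG v => by
    beta_reduce; rw [Formula.realize_inf, h2 G hG, h4 G hG]⟩

theorem or {R S : Pr.{u} α} (h : Df b C R) (h' : Df b C S) :
    Df b C (fun G _ v => R G v ∨ S G v) :=
  (h.not.and h'.not).not.congr (fun G _ _ v => by tauto)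

theorem imp {R S : Pr.{u} α} (h : Df b C R) (h' : Df b C S) :
    Df b C (fun G _ v => R G v → S G v) :=
  (h.and h'.not).not.congr (fun G _ _ v => by tauto)

theorem iff {R S : Pr.{u} α} (h : Df b C R) (h' : Df b C S) :
    Df b C (fun G _ v => R G v ↔ S G v) :=
  ((h.imp h').and (h'.imp h)).congr (fun G _ _ v => by tauto)

theorem const (p : Prop) : Df b C (fun _ _ (_ : α → _) => p) := by
  by_cases hp : p
  · exact (eq Tm.one Tm.one).congr (fun G _ _ v => by simp [hp])
  · exact (eq Tm.one Tm.one).not.congr (fun G _ _ v => by simp [hp])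

theorem forall_finset {κ : Type} (s : Finset κ) {R : κ → Pr.{u} α} (h : ∀ k, Df b C (R k)) :
    Df b C (fun G _ v => ∀ k ∈ s, R k G v) := by
  classical
  induction s using Finset.induction_on with
  | empty => exact (const True).congr (fun G _ _ v => by simp)
  | insert a s _ ih => exact ((h a).and ih).congr (fun G _ _ v => by simp)

theorem forall_fin {κ : Type} [Finite κ] {R : κ → Pr.{u} α} (h : ∀ k, Df b C (R k)) :
    Df b C (fun G _ v => ∀ k, R k G v) := by
  have := Fintype.ofFinite κ
  exact (forall_finset Finset.univ h).congr (fun G _ _ v => by simp)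

theorem exists_fin {κ : Type} [Finite κ] {R : κ → Pr.{u} α} (h : ∀ k, Df b C (R k)) :
    Df b C (fun G _ v => ∃ k, R k G v) :=
  (forall_fin (fun k => (h k).not)).not.congr (fun G _ _ v => by simp)

theorem funEq {κ : Type} [Finite κ] {F E : ∀ (G : Type u) [Group G], (α → G) → κ → G}
    (h : ∀ k, Tm (fun G _ v => F G v k)) (h' : ∀ k, Tm (fun G _ v => E G v k)) :
    Df b C (fun G _ v => F G v = E G v) :=
  (forall_fin (fun k => eq (h k) (h' k))).congr (fun G _ _ v => funext_iff)

theorem relabel {R : Pr.{u} α} (h : Df b C R) (f : α → β) :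
    Df b C (fun G _ (v : β → G) => R G (v ∘ f)) := by
  obtain ⟨φ, h1, h2⟩ := h
  exact ⟨φ.relabel f, fun hb => (h1 hb).relabel _, fun G _ hG v => by
    beta_reduce; rw [Formula.realize_relabel, h2 G hG]⟩

theorem subst {R : Pr.{u} α} (h : Df false C R) (F : ∀ (G : Type u) [Group G], (β → G) → α → G)
    (hF : ∀ a, Tm (fun G _ v => F G v a)) : Df false C (fun G _ v => R G (F G v)) := by
  obtain ⟨φ, -, h2⟩ := h
  choose t ht using hF
  refine ⟨φ.subst t, fun hb => by simp at hb, fun G _ hG v => ?_⟩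
  beta_reduce
  rw [h2 G hG, Formula.Realize, Formula.Realize, BoundedFormula.realize_subst]
  have : F G v = fun a => Term.realize v (t a) := funext fun a => ht a G v
  rw [this]

theorem exT (μ : Type) [Finite μ] {R : ∀ (G : Type u) [Group G], (α → G) → (μ → G) → Prop}
    (h : Df false C (fun G _ (w : α ⊕ μ → G) =>
      R G (fun a => w (Sum.inl a)) (fun m => w (Sum.inr m)))) :
    Df false C (fun G _ v => ∃ x : μ → G, R G v x) := by
  obtain ⟨φ, -, h2⟩ := h
  refine ⟨φ.iExs μ, fun hb => by simp at hb, fun G _ hG v => ?_⟩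
  rw [Formula.realize_iExs]
  exact exists_congr fun x => h2 G hG (Sum.elim v x)

theorem allT (μ : Type) [Finite μ] {R : ∀ (G : Type u) [Group G], (α → G) → (μ → G) → Prop}
    (h : Df false C (fun G _ (w : α ⊕ μ → G) =>
      R G (fun a => w (Sum.inl a)) (fun m => w (Sum.inr m)))) :
    Df false C (fun G _ v => ∀ x : μ → G, R G v x) :=
  (exT μ (R := fun G _ v x => ¬ R G v x) h.not).not.congr (fun G _ _ v => by simp)

theorem ex {R : ∀ (G : Type u) [Group G], (α → G) → G → Prop}
    (h : Df false C (fun G _ (w : α ⊕ Unit → G) =>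
      R G (fun a => w (Sum.inl a)) (w (Sum.inr ())))) :
    Df false C (fun G _ v => ∃ x : G, R G v x) :=
  (exT Unit (R := fun G _ v x => R G v (x ())) h).congr (fun G _ _ v =>
    ⟨fun ⟨x, hx⟩ => ⟨fun _ => x, hx⟩, fun ⟨x, hx⟩ => ⟨x (), hx⟩⟩)

theorem all {R : ∀ (G : Type u) [Group G], (α → G) → G → Prop}
    (h : Df false C (fun G _ (w : α ⊕ Unit → G) =>
      R G (fun a => w (Sum.inl a)) (w (Sum.inr ())))) :
    Df false C (fun G _ v => ∀ x : G, R G v x) :=
  (ex (R := fun G _ v x => ¬ R G v x) h.not).not.congr (fun G _ _ v => by simp)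

end Df

/-- The class of all groups. -/
def AllG : Cls.{u} := fun _ _ => True

/-- An injective group homomorphism as an embedding of structures. -/
def embOf {G K : Type u} [Group G] [Group K] (f : G →* K) (hf : Function.Injective f) :
    G ↪[grpLang] K where
  toFun := f
  inj' := hf
  map_fun' := fun {n} s x => by
    cases s with
    | unit => exact map_one f
    | inverse => exact map_inv f _
    | product => exact map_mul f _ _
  map_rel' := fun r => Empty.elim r

theorem Df.map {α : Type} {R : Pr.{u} α} (h : Df true AllG R) {G K : Type u} [Group G] [Group K]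
    (f : G →* K) (hf : Function.Injective f) (v : α → G) : R K (f ∘ v) ↔ R G v := by
  obtain ⟨φ, h1, h2⟩ := h
  rw [h2 G trivial, h2 K trivial, Formula.Realize, Formula.Realize,
    ← (h1 rfl).realize_embedding (embOf f hf)]
  rw [Unique.eq_default ((embOf f hf) ∘ default)]
  rfl

/-- Existentially closed groups. -/
def EC : Cls.{u} := fun G _ =>
  ∀ (μ ι : Type) [Finite μ] [Finite ι] (R : Pr.{u} (μ ⊕ ι)), Df true AllG R →
    ∀ (K : Type u) [Group K] (f : G →* K), Function.Injective f →
      ∀ (a : μ → G) (x : ι → K), R K (Sum.elim (f ∘ a) x) → ∃ y : ι → G, R G (Sum.elim a y)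

end Pool.Agent.P.MP_6c8412_lc
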