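import Pool.Agent.P.MP_6c8412_lc.Approx
import Pool.Agent.P.MP_6c8412_lc.Cont

set_option linter.unusedVariables false
set_option linter.unusedSectionVars false

namespace Pool.Agent.P.MP_6c8412_lc

universe u

/-- Real functions which are bounded and approximately definable on a domain. -/
def AD {α : Type} (Dom : Pr.{u} α) (F : ∀ (G : Type u) [Group G], (α → G) → ℝ) : Prop :=
  (∃ C : ℝ, ∀ (G : Type u) [Group G] (v : α → G), Dom G v → |F G v| ≤ C) ∧
    ∀ p q : ℝ, p < q → ∃ θ : Pr.{u} α, Df false EC θ ∧ ∀ (G : Type u) [Group G], EC G →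
      ∀ v, Dom G v → (F G v ≤ p → θ G v) ∧ (θ G v → F G v ≤ q)

namespace AD

variable {α : Type} {Dom : Pr.{u} α}

theorem congr {F E : ∀ (G : Type u) [Group G], (α → G) → ℝ} (h : AD Dom F)
    (e : ∀ (G : Type u) [Group G] (v : α → G), E G v = F G v) : AD Dom E := by
  have : E = F := by
    funext G _ v
    exact e G v
  rwa [this]

theorem simple {F : ∀ (G : Type u) [Group G], (α → G) → ℝ} (h : AD Dom F) {η : ℝ} (hη : 0 < η) :
    ∃ (s : Finset ℤ) (θ : ℤ → Pr.{u} α), (∀ m, Df false EC (θ m)) ∧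
      ∀ (G : Type u) [Group G], EC G → ∀ v, Dom G v →
        (∃ m ∈ s, θ m G v) ∧ ∀ m, θ m G v → |F G v - m * η| ≤ 2 * η := by
  obtain ⟨⟨C, hC⟩, h⟩ := h
  choose A hA1 hA2 using fun m : ℤ => h (m * η) ((m + 1) * η) (by nlinarith)
  refine ⟨Finset.Icc ⌈-C / η⌉ ⌈C / η⌉, fun m G _ v => A m G v ∧ ¬ A (m - 2) G v,
    fun m => (hA1 m).and (hA1 _).not, fun G _ hG v hv => ⟨⟨⌈F G v / η⌉, ?_, ?_, ?_⟩, ?_⟩⟩
  · have := abs_le.1 (hC G v hv)
    rw [Finset.mem_Icc]
    exact ⟨Int.ceil_mono (div_le_div_of_nonneg_right this.1 hη.le),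
      Int.ceil_mono (div_le_div_of_nonneg_right this.2 hη.le)⟩
  · refine (hA2 _ G hG v hv).1 ?_
    rw [← div_le_iff₀ hη]
    exact Int.le_ceil _
  · intro h1
    have h2 := (hA2 _ G hG v hv).2 h1
    rw [← div_le_iff₀ hη] at h2
    have := Int.ceil_lt_add_one (F G v / η)
    push_cast at h2
    linarith
  · rintro m ⟨h1, h2⟩
    have h3 := (hA2 _ G hG v hv).2 h1
    have h4 := lt_of_not_ge (fun h5 => h2 ((hA2 _ G hG v hv).1 h5))
    push_cast at h4
    rw [abs_le]
    constructor <;> nlinarith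

theorem conn {κ : Type} [Fintype κ] (c : (κ → ℝ) → ℝ) (hc : Continuous c)
    {F : κ → ∀ (G : Type u) [Group G], (α → G) → ℝ} (h : ∀ k, AD Dom (F k)) :
    AD Dom (fun G _ v => c (fun k => F k G v)) := by
  classical
  choose C hC using fun k => (h k).1
  have hK : IsCompact (Set.pi Set.univ fun i => Set.Icc (-(C i + 1)) (C i + 1)) :=
    isCompact_univ_pi fun i => isCompact_Icc
  have hmem : ∀ (G : Type u) [Group G] (v : α → G), Dom G v →
      (fun i => F i G v) ∈ Set.pi Set.univ fun i => Set.Icc (-(C i + 1)) (C i + 1) :=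
    fun G _ v hv i _ => abs_le.1 ((hC i G v hv).trans (by linarith))
  obtain ⟨D, hD⟩ := hK.exists_bound_of_continuousOn hc.continuousOn
  refine ⟨⟨D, fun G _ v hv => hD _ (hmem G v hv)⟩, fun p q hpq => ?_⟩
  obtain ⟨η, hη, h1⟩ := Metric.uniformContinuousOn_iff_le.1
    (hK.uniformContinuousOn_of_continuous hc.continuousOn) ((q - p) / 2) (by linarith)
  have hη' : 0 < min η 1 / 2 := by positivity
  choose s θ hθ1 hθ2 using fun k => (h k).simple hη'
  have key : ∀ (G : Type u) [Group G], EC G → ∀ v, Dom G v → ∀ m : κ → ℤ,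
      (∀ k, θ k (m k) G v) → |c (fun k => F k G v) - c (fun k => m k * (min η 1 / 2))| ≤
        (q - p) / 2 := by
    intro G _ hG v hv m hm
    have h2 : ∀ k, |F k G v - m k * (min η 1 / 2)| ≤ min η 1 := fun k =>
      ((hθ2 k G hG v hv).2 _ (hm k)).trans_eq (by ring)
    refine h1 _ (hmem G v hv) _ (fun k _ => ?_) ((dist_pi_le_iff hη.le).2 fun k =>
      (h2 k).trans (min_le_left _ _))
    have h3 := abs_le.1 ((h2 k).trans (min_le_right _ _))
    have h4 := abs_le.1 (hC k G v hv)
    constructor <;> linarith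
  refine ⟨fun G _ v => ∃ m : Fintype.piFinset s,
    c (fun k => m.1 k * (min η 1 / 2)) ≤ (p + q) / 2 ∧ ∀ k, θ k (m.1 k) G v,
    Df.exists_fin fun m => (Df.const _).and (Df.forall_fin fun k => hθ1 k _),
    fun G _ hG v hv => ⟨fun h2 => ?_, ?_⟩⟩
  · choose m hm1 hm2 using fun k => (hθ2 k G hG v hv).1
    refine ⟨⟨m, Fintype.mem_piFinset.2 hm1⟩, ?_, hm2⟩
    have := abs_le.1 (key G hG v hv m hm2)
    beta_reduce at h2
    simp only
    linarith
  · rintro ⟨m, h2, h3⟩
    have := abs_le.1 (key G hG v hv m h3)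
    beta_reduce
    linarith

theorem lin {F E : ∀ (G : Type u) [Group G], (α → G) → ℝ} (h : AD Dom F) (h' : AD Dom E)
    (a b : ℝ) : AD Dom (fun G _ v => a * F G v + b * E G v) :=
  conn (κ := Bool) (fun w => a * w true + b * w false) (by fun_prop)
    (F := fun k G _ v => cond k (F G v) (E G v)) (by
      intro k
      cases k
      · exact h'
      · exact h)

theorem zero : AD Dom (fun G _ v => 0) :=
  conn (κ := Empty) (fun _ => 0) continuous_const (F := fun k => k.elim) (fun k => k.elim)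

theorem ofZn {Z : ∀ (G : Type u) [Group G], (α → G) → ℂ} (hZ : Zn Z)
    {D : ∀ (G : Type u) [Group G], (α → G) → ℕ} (hD : Cn D)
    (hpos : ∀ (G : Type u) [Group G] (v : α → G), 0 < D G v)
    {F : ∀ (G : Type u) [Group G], (α → G) → ℝ}
    (hF : ∀ (G : Type u) [Group G] (v : α → G), (Z G v).re = D G v * F G v)
    (hb : ∃ C : ℝ, ∀ (G : Type u) [Group G] (v : α → G), Dom G v → |F G v| ≤ C) : AD Dom F := by
  refine ⟨hb, fun p q hpq => ?_⟩
  obtain ⟨r, h1, h2⟩ := exists_rat_btwn hpq
  have h3 := (Zn.mulCn (Cn.const r.den) hZ).re_le (Zn.intMul r.num (Zn.ofCn hD))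
  have key : ∀ (G : Type u) [Group G] (v : α → G),
      ((r.den : ℂ) * Z G v).re ≤ ((r.num : ℂ) * (D G v : ℂ)).re ↔ F G v ≤ r := by
    intro G _ v
    have h4 : (0 : ℝ) < D G v := by exact_mod_cast hpos G v
    have h5 : (0 : ℝ) < r.den := by exact_mod_cast r.pos
    rw [← Complex.ofReal_natCast, Complex.re_ofReal_mul, hF, ← Complex.ofReal_intCast,
      Complex.re_ofReal_mul, Complex.natCast_re, Rat.cast_def, le_div_iff₀ h5]
    constructor <;> intro h <;> nlinarith
  exact ⟨_, h3, fun G _ hG v hv => ⟨fun h => (key G v).2 (h.trans h1.le),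
    fun h => ((key G v).1 h).trans h2.le⟩⟩

end AD

/-- Normal form of a term as a linear combination of monomials. -/
noncomputable def nf {n : ℕ} : OpTerm n → List (ℂ × List (Fin n × Bool))
  | .var i => [(1, [(i, false)])]
  | .zero => []
  | .one => [(1, [])]
  | .add s t => nf s ++ nf t
  | .mul s t => (nf s).flatMap fun a => (nf t).map fun b => (a.1 * b.1, a.2 ++ b.2)
  | .adj t => (nf t).map fun a => (star a.1, (a.2.map fun p => (p.1, !p.2)).reverse)
  | .smul c t => (nf t).map fun a => (c * a.1, a.2)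

section

variable {G : Type u} [Group G]

theorem wd_cons {ι : Type} (x : ι → Op G) (p : ι × Bool) (w : List (ι × Bool)) :
    wd x (p :: w) = cond p.2 (star (x p.1)) (x p.1) * wd x w := by
  simp [wd]

theorem wd_append {ι : Type} (x : ι → Op G) (w w' : List (ι × Bool)) :
    wd x (w ++ w') = wd x w * wd x w' := by
  simp [wd]

theorem star_wd {ι : Type} (x : ι → Op G) (w : List (ι × Bool)) :
    star (wd x w) = wd x (w.map fun p => (p.1, !p.2)).reverse := by
  induction w with
  | nil => simp [wd]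
  | cons p w ih =>
    rw [wd_cons, star_mul, ih, List.map_cons, List.reverse_cons, wd_append]
    obtain ⟨i, b⟩ := p
    cases b <;> simp [wd]

/-- Value of a linear combination of monomials. -/
noncomputable def lc {ι : Type} (x : ι → Op G) (l : List (ℂ × List (ι × Bool))) : Op G :=
  (l.map fun a => a.1 • wd x a.2).sum

theorem lc_cons {ι : Type} (x : ι → Op G) (a : ℂ × List (ι × Bool))
    (l : List (ℂ × List (ι × Bool))) : lc x (a :: l) = a.1 • wd x a.2 + lc x l := by
  simp [lc]

theorem lc_append {ι : Type} (x : ι → Op G) (l l' : List (ℂ × List (ι × Bool))) :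
    lc x (l ++ l') = lc x l + lc x l' := by
  simp [lc]

theorem termVal_eq_lc {n : ℕ} (x : Fin n → Op G) (t : OpTerm n) : termVal x t = lc x (nf t) := by
  induction t with
  | var i => simp [termVal_var, nf, lc, wd]
  | zero => simp [termVal_zero, nf, lc]
  | one => simp [termVal_one, nf, lc, wd]
  | add s t hs ht => rw [termVal_add, hs, ht, nf, lc_append]
  | mul s t hs ht =>
    rw [termVal_mul, hs, ht, nf]
    induction nf s with
    | nil => simp [lc]
    | cons a l ih =>
      rw [List.flatMap_cons, lc_append, ← ih, lc_cons, add_mul]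
      congr 1
      induction nf t with
      | nil => simp [lc]
      | cons b l' ih' =>
        rw [List.map_cons, lc_cons, lc_cons, mul_add, ih', wd_append, smul_mul_smul_comm]
  | adj t ht =>
    rw [termVal_adj, ht, nf]
    induction nf t with
    | nil => simp [lc]
    | cons a l ih => rw [List.map_cons, lc_cons, lc_cons, star_add, ih, star_smul, star_wd]
  | smul c t ht =>
    rw [termVal_smul, ht, nf]
    induction nf t with
    | nil => simp [lc]
    | cons a l ih => rw [List.map_cons, lc_cons, lc_cons, smul_add, ih, smul_smul]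

theorem norm_wd_le {ι : Type} {x : ι → Op G} {R : ℝ} (hx : ∀ i, ‖x i‖ ≤ R) (w : List (ι × Bool)) :
    ‖wd x w‖ ≤ |R| ^ w.length := by
  induction w with
  | nil => exact ContinuousLinearMap.norm_id_le.trans_eq (by simp)
  | cons p w ih =>
    rw [wd_cons, List.length_cons, pow_succ']
    refine (norm_mul_le _ _).trans (mul_le_mul ?_ ih (norm_nonneg _) (abs_nonneg _))
    obtain ⟨i, b⟩ := p
    cases b
    · exact (hx i).trans (le_abs_self R)
    · exact (norm_star (x i)).trans_le ((hx i).trans (le_abs_self R))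

theorem wd_num {ι : Type} (c : ι → XC → G) (w : List (ι × Bool)) :
    wd (fun i => num (c i)) w =
      (((w.map fun p => den (c p.1)).prod : ℕ) : ℂ) • wd (fun i => cop (c i)) w := by
  induction w with
  | nil => simp [wd]
  | cons p w ih =>
    rw [wd_cons, wd_cons, ih, List.map_cons, List.prod_cons, Nat.cast_mul, ← smul_mul_smul_comm]
    congr 1
    obtain ⟨i, b⟩ := p
    cases b
    · exact num_eq _
    · simp only [cond_true]
      rw [num_eq, star_smul]
      simp

end

/-- The tuple of operators coded by `v`. -/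
noncomputable def cops {G : Type u} [Group G] {n : ℕ} (v : Fin n × XC → G) : Fin n → Op G :=
  fun i => cop (fun k => v (i, k))

/-- Codes of tuples of operators of norm at most `R`. -/
def DomR (n : ℕ) (R : ℝ) : Pr.{u} (Fin n × XC) := fun G _ v => ∀ i, ‖cops v i‖ ≤ R

theorem DomR.inB {n : ℕ} {R : ℝ} {G : Type u} [Group G] {v : Fin n × XC → G}
    (h : DomR n R G v) : InB R (cops v) := fun i => ⟨span_le_Mcom (cop_mem _), h i⟩

theorem ad_wd {n : ℕ} (R : ℝ) (w : List (Fin n × Bool)) :
    AD (DomR.{u} n R) (fun G _ v => (groupTr G (wd (cops v) w)).re) ∧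
    AD (DomR.{u} n R) (fun G _ v => (groupTr G (wd (cops v) w)).im) := by
  have hD : Cn.{u} (fun G _ (v : Fin n × XC → G) =>
      (w.map fun p => den (fun k => v (p.1, k))).prod) := by
    induction w with
    | nil => exact Cn.const 1
    | cons p w ih => exact (Cn.den (fun k => (p.1, k))).mul ih
  have hpos : ∀ (G : Type u) [Group G] (v : Fin n × XC → G),
      0 < (w.map fun p => den (fun k => v (p.1, k))).prod := fun G _ v =>
    List.prod_pos (by
      intro a ha
      obtain ⟨p, -, rfl⟩ := List.mem_map.1 ha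
      exact den_pos _)
  have hb : ∀ (G : Type u) [Group G] (v : Fin n × XC → G), DomR n R G v →
      ‖groupTr G (wd (cops v) w)‖ ≤ |R| ^ w.length := fun G _ v hv =>
    (norm_groupTr_le _).trans ((n2_le _).trans (norm_wd_le hv w))
  constructor
  · refine AD.ofZn (Zn.tr_wd w) hD hpos (fun G _ v => ?_)
      ⟨_, fun G _ v hv => (Complex.abs_re_le_norm _).trans (hb G v hv)⟩
    rw [wd_num (fun i k => v (i, k)), groupTr_smul, ← Complex.ofReal_natCast,
      Complex.re_ofReal_mul]
    rfl
  · refine AD.ofZn (Zn.tr_wd w).mulI.neg hD hpos (fun G _ v => ?_)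
      ⟨_, fun G _ v hv => (Complex.abs_im_le_norm _).trans (hb G v hv)⟩
    rw [wd_num (fun i k => v (i, k)), groupTr_smul, ← Complex.ofReal_natCast, Complex.neg_re,
      Complex.I_mul_re, neg_neg, Complex.im_ofReal_mul]
    rfl

theorem ad_term {n : ℕ} (R : ℝ) (t : OpTerm n) :
    AD (DomR.{u} n R) (fun G _ v => (groupTr G (termVal (cops v) t)).re) ∧
    AD (DomR.{u} n R) (fun G _ v => (groupTr G (termVal (cops v) t)).im) := by
  simp only [termVal_eq_lc]
  induction nf t with
  | nil =>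
    exact ⟨AD.zero.congr (fun G _ v => by simp [lc, groupTr_zero]),
      AD.zero.congr (fun G _ v => by simp [lc, groupTr_zero])⟩
  | cons a l ih =>
    obtain ⟨h1, h2⟩ := ad_wd.{u} R a.2
    constructor
    · refine ((h1.lin h2 a.1.re (-a.1.im)).lin ih.1 1 1).congr (fun G _ v => ?_)
      rw [lc_cons, groupTr_add, groupTr_smul, Complex.add_re, Complex.mul_re]
      ring
    · refine ((h1.lin h2 a.1.im a.1.re).lin ih.2 1 1).congr (fun G _ v => ?_)
      rw [lc_cons, groupTr_add, groupTr_smul, Complex.add_im, Complex.mul_im]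
      ring

/-- Adding the code of one more operator. -/
def consC {G : Type u} {n : ℕ} (d : XC → G) (v : Fin n × XC → G) : Fin (n + 1) × XC → G :=
  fun p => (Fin.cons d (fun i k => v (i, k)) : Fin (n + 1) → XC → G) p.1 p.2

theorem cops_consC {G : Type u} [Group G] {n : ℕ} (d : XC → G) (v : Fin n × XC → G) :
    cops (consC d v) = Fin.cons (cop d) (cops v) := by
  funext i
  induction i using Fin.cases with
  | zero => rfl
  | succ i => rfl

theorem DomR.cons {n : ℕ} {R r : ℝ} {G : Type u} [Group G] {v : Fin n × XC → G}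
    (h : DomR n R G v) {d : XC → G} (hd : ‖cop d‖ ≤ r) : DomR (n + 1) (max R r) G (consC d v) := by
  intro i
  rw [cops_consC]
  exact (h.inB.cons (span_le_Mcom (cop_mem d)) hd i).2

theorem Df.consC {n : ℕ} {θ : Pr.{u} (Fin (n + 1) × XC)} (h : Df false EC θ) :
    Df false EC (fun G _ (w : (Fin n × XC) ⊕ XC → G) =>
      θ G (consC (fun k => w (Sum.inr k)) (fun a => w (Sum.inl a)))) := by
  refine h.subst _ ?_
  rintro ⟨i, k⟩
  induction i using Fin.cases with
  | zero => exact Tm.var _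
  | succ i => exact Tm.var _

theorem exists_code_near {n : ℕ} (φ : OpForm (n + 1)) {R : ℝ} {r : ℕ} {G : Type u} [Group G]
    (hG : EC G) {x : Fin n → Op G} (hx : InB R x) (y : {y : Op G // y ∈ groupVN G ∧ ‖y‖ ≤ r})
    {ε : ℝ} (hε : 0 < ε) : ∃ d : XC → G, ‖cop d‖ ≤ r ∧
      |fv G φ (Fin.cons (cop d) x) - fv G φ (Fin.cons y.1 x)| ≤ ε := by
  obtain ⟨δ, hδ, h⟩ := (good_fv φ (max R r)).2 ε hε
  obtain ⟨d, h1, h2⟩ := hG.exists_cop_near (groupVN_subset y.2.1) y.2.2 hδ
  exact ⟨d, h1, h G _ _ (hx.cons (span_le_Mcom (cop_mem d)) h1)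
    (hx.cons (groupVN_subset y.2.1) y.2.2) ((Near.refl hδ.le x).cons h2.le)⟩

theorem ad_fv {n : ℕ} (φ : OpForm n) (R : ℝ) :
    AD (DomR.{u} n R) (fun G _ v => fv G φ (cops v)) := by
  induction φ generalizing R with
  | reTr t => exact (ad_term R t).1
  | imTr t => exact (ad_term R t).2
  | dist2 s t =>
    have h := (ad_term.{u} R (.mul (.adj (.add s (.smul (-1) t))) (.add s (.smul (-1) t)))).1
    refine (AD.conn (κ := Unit) (fun w => √(w ())) (by fun_prop) (fun _ => h)).congr
      (fun G _ v => ?_)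
    rw [fv, formVal_dist2, termVal_mul, termVal_adj, termVal_add, termVal_smul, neg_one_smul,
      sub_eq_add_neg]
  | conn k c φ ih => exact AD.conn c c.continuous (fun i => ih i R)
  | supB r φ ih =>
    obtain ⟨C, hC⟩ := (good_fv.{u} (.supB r φ) R).1
    obtain ⟨C', hC'⟩ := (good_fv.{u} φ (max R r)).1
    refine ⟨⟨C, fun G _ v hv => hC G _ hv.inB⟩, fun p q hpq => ?_⟩
    obtain ⟨θ, h1, h2⟩ := (ih (max R r)).2 p q hpq
    refine ⟨fun G _ v => ∀ d : XC → G, ‖cop d‖ ≤ r → θ G (consC d v), Df.allT XC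
      (((Df.norm_cop_le r).subst (fun G _ w k => w (Sum.inr k)) (fun _ => Tm.var _)).imp
        h1.consC), fun G _ hG v hv => ⟨fun h3 d hd => ?_, fun h3 => ?_⟩⟩
    · have := ball_nonempty G r
      have hb := (abs_ciSup_le (fun y : {y : Op G // y ∈ groupVN G ∧ ‖y‖ ≤ r} =>
        hC' G _ (hv.inB.cons (groupVN_subset y.2.1) y.2.2))).1
      refine (h2 G hG _ (hv.cons hd)).1 ?_
      beta_reduce
      rw [cops_consC]
      exact (le_ciSup hb ⟨cop d, mem_groupVN_of_span (cop_mem d), hd⟩).trans h3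
    · have := ball_nonempty G r
      refine ciSup_le fun y => le_of_forall_pos_le_add fun ε hε => ?_
      obtain ⟨d, hd, h4⟩ := exists_code_near φ hG hv.inB y hε
      have h5 := (h2 G hG _ (hv.cons hd)).2 (h3 d hd)
      beta_reduce at h5
      rw [cops_consC] at h5
      have := (abs_le.1 h4).1
      change fv G φ (Fin.cons y.1 (cops v)) ≤ _
      linarith
  | infB r φ ih =>
    obtain ⟨C, hC⟩ := (good_fv.{u} (.infB r φ) R).1
    obtain ⟨C', hC'⟩ := (good_fv.{u} φ (max R r)).1
    refine ⟨⟨C, fun G _ v hv => hC G _ hv.inB⟩, fun p q hpq => ?_⟩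
    obtain ⟨θ, h1, h2⟩ := (ih (max R r)).2 ((p + q) / 2) q (by linarith)
    refine ⟨fun G _ v => ∃ d : XC → G, ‖cop d‖ ≤ r ∧ θ G (consC d v), Df.exT XC
      (((Df.norm_cop_le r).subst (fun G _ w k => w (Sum.inr k)) (fun _ => Tm.var _)).and
        h1.consC), fun G _ hG v hv => ⟨fun h3 => ?_, ?_⟩⟩
    · have := ball_nonempty G r
      have h4 : ⨅ y : {y : Op G // y ∈ groupVN G ∧ ‖y‖ ≤ r}, fv G φ (Fin.cons y.1 (cops v)) <
          p + (q - p) / 4 := lt_of_le_of_lt h3 (by linarith)
      obtain ⟨y, hy⟩ := exists_lt_of_ciInf_lt h4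
      obtain ⟨d, hd, h5⟩ := exists_code_near φ hG hv.inB y (ε := (q - p) / 4) (by linarith)
      refine ⟨d, hd, (h2 G hG _ (hv.cons hd)).1 ?_⟩
      beta_reduce
      rw [cops_consC]
      have := (abs_le.1 h5).2
      linarith
    · rintro ⟨d, hd, h3⟩
      have := ball_nonempty G r
      have hb := (abs_ciInf_le (fun y : {y : Op G // y ∈ groupVN G ∧ ‖y‖ ≤ r} =>
        hC' G _ (hv.inB.cons (groupVN_subset y.2.1) y.2.2))).1
      have h5 := (h2 G hG _ (hv.cons hd)).2 h3
      beta_reduce at h5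
      rw [cops_consC] at h5
      exact (ciInf_le hb ⟨cop d, mem_groupVN_of_span (cop_mem d), hd⟩).trans h5

theorem fv_le {G H : Type u} [Group G] [Group H] (hG : IsInfGeneric G) (hH : IsInfGeneric H)
    (σ : OpForm 0) : fv H σ ![] ≤ fv G σ ![] := by
  refine le_of_forall_pos_le_add fun ε hε => ?_
  obtain ⟨θ, h1, h2⟩ := (ad_fv.{u} σ 0).2 (fv G σ ![]) (fv G σ ![] + ε) (by linarith)
  have h3 := (h2 G hG.ec isEmptyElim (fun i => i.elim0)).1 (le_of_eq (by
    beta_reduce
    rw [Subsingleton.elim (cops _) ![]]))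
  have h4 := (h2 H hH.ec isEmptyElim (fun i => i.elim0)).2 ((h1.transfer hG hH _ _).1 h3)
  beta_reduce at h4
  rwa [Subsingleton.elim (cops _) ![]] at h4

theorem main (G H : Type u) [Group G] [Group H] (hG : IsInfGeneric G) (hH : IsInfGeneric H)
    (σ : OpForm 0) : groupVal G σ = groupVal H σ :=
  le_antisymm (fv_le hH hG σ) (fv_le hG hH σ)

end Pool.Agent.P.MP_6c8412_lc
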