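import Pool.Agent.P.MP_6c8412_lc.Defs

set_option linter.unusedVariables false
set_option linter.unusedSectionVars false

namespace Pool.Agent.P.MP_6c8412_lc

universe u

/-- The Hilbert space of square summable functions on `G`. -/
abbrev SqSum (G : Type u) : Type u := lp (fun _ : G => ℂ) 2

/-- Bounded operators on the space of square summable functions. -/
abbrev Op (G : Type u) : Type u := SqSum G →L[ℂ] SqSum G

section

variable {G : Type u}

theorem memℓp_comp (e : G ≃ G) (ξ : SqSum G) : Memℓp (fun h => ξ (e h)) 2 :=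
  memℓp_gen ((e.summable_iff (f := fun h => ‖ξ h‖ ^ (2 : ENNReal).toReal)).2
    ((lp.memℓp ξ).summable (by norm_num)))

/-- Reindexing along a bijection as a linear map. -/
noncomputable def reixL (e : G ≃ G) : SqSum G →ₗ[ℂ] SqSum G where
  toFun ξ := ⟨fun h => ξ (e h), memℓp_comp e ξ⟩
  map_add' _ _ := rfl
  map_smul' _ _ := rfl

theorem norm_reixL (e : G ≃ G) (ξ : SqSum G) : ‖reixL e ξ‖ = ‖ξ‖ := by
  rw [lp.norm_eq_tsum_rpow (by norm_num), lp.norm_eq_tsum_rpow (by norm_num)]
  congr 1
  exact e.tsum_eq (fun h => ‖ξ h‖ ^ (2 : ENNReal).toReal)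

/-- Reindexing along a bijection. -/
noncomputable def reix (e : G ≃ G) : Op G :=
  (reixL e).mkContinuous 1 (fun ξ => by rw [norm_reixL, one_mul])

@[simp] theorem reix_apply (e : G ≃ G) (ξ : SqSum G) (h : G) : reix e ξ h = ξ (e h) := rfl

theorem norm_reix (e : G ≃ G) (ξ : SqSum G) : ‖reix e ξ‖ = ‖ξ‖ := norm_reixL e ξ

theorem star_reix (e : G ≃ G) : star (reix e) = reix e.symm := by
  symm
  rw [ContinuousLinearMap.star_eq_adjoint, ContinuousLinearMap.eq_adjoint_iff]
  intro x y
  rw [lp.inner_eq_tsum, lp.inner_eq_tsum, ← e.tsum_eq]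
  simp

theorem op_ext {S T : Op G} (h : ∀ ξ g, S ξ g = T ξ g) : S = T :=
  ContinuousLinearMap.ext fun ξ => lp.ext (funext (h ξ))

variable [Group G]

/-- Left translation. -/
noncomputable def lam (g : G) : Op G := reix (Equiv.mulLeft g⁻¹)

/-- Right translation. -/
noncomputable def rho (g : G) : Op G := reix (Equiv.mulRight g)

@[simp] theorem lam_apply (g : G) (ξ : SqSum G) (h : G) : lam g ξ h = ξ (g⁻¹ * h) := rfl

@[simp] theorem rho_apply (g : G) (ξ : SqSum G) (h : G) : rho g ξ h = ξ (h * g) := rfl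

theorem star_lam (g : G) : star (lam g) = lam g⁻¹ := by
  rw [lam, star_reix]
  exact op_ext fun ξ h => by simp

theorem star_rho (g : G) : star (rho g) = rho g⁻¹ := by
  rw [rho, star_reix]
  exact op_ext fun ξ h => by simp

theorem lam_mul (g h : G) : lam (g * h) = lam g * lam h :=
  op_ext fun ξ k => by simp [mul_assoc]

theorem lam_one : lam (1 : G) = 1 := op_ext fun ξ k => by simp

theorem commute_rho_lam (g h : G) : Commute (rho g) (lam h) :=
  op_ext fun ξ k => by simp [mul_assoc]

open Classical in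
/-- The point mass at `g`. -/
noncomputable def dl (g : G) : SqSum G := lp.single 2 g (1 : ℂ)

open Classical in
theorem dl_apply (g h : G) : dl g h = if h = g then 1 else 0 := by
  simp [dl, lp.single_apply, Pi.single_apply]

theorem norm_dl (g : G) : ‖dl g‖ = 1 := by
  classical
  rw [dl, lp.norm_single (by norm_num), norm_one]

theorem inner_dl (g : G) (ξ : SqSum G) : inner ℂ (dl g) ξ = ξ g := by
  classical
  rw [dl, lp.inner_single_left]
  simp

variable (G) in
/-- The group von Neumann algebra. -/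
def groupVN : Set (Op G) := translVN (dl (G := G))

variable (G) in
/-- The canonical trace. -/
noncomputable def groupTr (T : Op G) : ℂ := inner ℂ (dl (1 : G)) (T (dl 1))

theorem groupVal_eq (σ : OpForm 0) : groupVal G σ = formVal (groupVN G) (groupTr G) σ ![] := rfl

theorem groupTr_eq (T : Op G) : groupTr G T = T (dl 1) 1 := by
  rw [← inner_dl]
  rfl

theorem rho_dl (g : G) : rho g⁻¹ (dl 1) = dl g :=
  lp.ext (funext fun h => by
    rw [rho_apply, dl_apply, dl_apply]; by_cases e : h = g <;> simp [mul_inv_eq_one, e])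

theorem lam_dl' (g k : G) : lam g (dl k) = dl (g * k) :=
  lp.ext (funext fun h => by
    rw [lam_apply, dl_apply, dl_apply]
    by_cases e : h = g * k
    · simp [e]
    · rw [if_neg e, if_neg (fun e' => e (inv_mul_eq_iff_eq_mul.1 e'))])

theorem lam_dl (g : G) : lam g (dl 1) = dl g := by rw [lam_dl', mul_one]

variable (G) in
/-- The commutant of the right translations. -/
noncomputable def Mcom : StarSubalgebra ℂ (Op G) where
  carrier := {T | ∀ g : G, Commute (rho g) T}
  mul_mem' := fun ha hb g => (ha g).mul_right (hb g)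
  add_mem' := fun ha hb g => (ha g).add_right (hb g)
  algebraMap_mem' := fun r g => (Algebra.commutes r (rho g)).symm
  star_mem' := fun {T} hT g => by
    have := (hT g⁻¹).star_star
    rwa [star_rho, inv_inv] at this

theorem mem_Mcom {T : Op G} : T ∈ Mcom G ↔ ∀ g : G, Commute (rho g) T := Iff.rfl

theorem lam_mem_Mcom (g : G) : lam g ∈ Mcom G := fun h => commute_rho_lam h g

theorem isClosed_Mcom : IsClosed (Mcom G : Set (Op G)) := by
  have : (Mcom G : Set (Op G)) = ⋂ g : G, {T | rho g * T = T * rho g} := by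
    ext T
    simp only [Set.mem_iInter]
    rfl
  rw [this]
  exact isClosed_iInter fun g => isClosed_eq (by fun_prop) (by fun_prop)

theorem leftSet_eq : {U : Op G | ∃ g : G, ∀ h, U (dl h) = dl (g * h)} = Set.range lam := by
  classical
  ext U
  refine ⟨fun ⟨g, hg⟩ => ⟨g, ?_⟩, fun ⟨g, hg⟩ => ⟨g, fun h => hg ▸ lam_dl' g h⟩⟩
  refine lp.ext_continuousLinearMap (by norm_num) fun h => ?_
  ext1
  exact (lam_dl' g h).trans (hg h).symm

theorem span_le_Mcom {T : Op G} (hT : T ∈ Submodule.span ℂ (Set.range (lam (G := G)))) :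
    T ∈ Mcom G := by
  induction hT using Submodule.span_induction with
  | mem x hx => obtain ⟨g, rfl⟩ := hx; exact lam_mem_Mcom g
  | zero => exact zero_mem _
  | add x y _ _ hx hy => exact add_mem hx hy
  | smul c x _ hx => exact SMulMemClass.smul_mem c hx

theorem mem_groupVN_of_span {T : Op G} (hT : T ∈ Submodule.span ℂ (Set.range (lam (G := G)))) :
    T ∈ groupVN G := by
  rw [← leftSet_eq] at hT
  exact subset_closure ⟨T, hT, rfl⟩

theorem groupVN_subset {T : Op G} (hT : T ∈ groupVN G) : T ∈ Mcom G := by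
  intro g
  refine op_ext fun ξ h => ?_
  have hc : IsClosed {A : SqSum G →WOT[ℂ] SqSum G |
      lp.evalCLM ℂ (fun _ : G => ℂ) 2 (h * g) (A ξ) =
        lp.evalCLM ℂ (fun _ : G => ℂ) 2 h (A (rho g ξ))} :=
    isClosed_eq (ContinuousLinearMapWOT.continuous_dual_apply _ _)
      (ContinuousLinearMapWOT.continuous_dual_apply _ _)
  have := (hc.closure_subset_iff (s := ContinuousLinearMapWOT.ofCLM ''
    (Submodule.span ℂ {U : Op G | ∃ g : G, ∀ h, U (dl h) = dl (g * h)} : Set (Op G)))).2 (by
      rintro _ ⟨S, hS, rfl⟩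
      rw [leftSet_eq] at hS
      have h1 := congrArg (fun U : Op G => U ξ h) (span_le_Mcom hS g).eq
      exact h1) hT
  exact this

/-- The trace norm of exponent two. -/
noncomputable def n2 (T : Op G) : ℝ := ‖T (dl 1)‖

theorem n2_nonneg (T : Op G) : 0 ≤ n2 T := norm_nonneg _

theorem n2_mul_le (S T : Op G) : n2 (S * T) ≤ ‖S‖ * n2 T := S.le_opNorm _

theorem n2_le (T : Op G) : n2 T ≤ ‖T‖ := by
  have := T.le_opNorm (dl 1)
  rwa [norm_dl, mul_one] at this

theorem n2_add_le (S T : Op G) : n2 (S + T) ≤ n2 S + n2 T := norm_add_le _ _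

theorem n2_neg (T : Op G) : n2 (-T) = n2 T := norm_neg _

theorem n2_sub_comm (S T : Op G) : n2 (S - T) = n2 (T - S) := by
  rw [← n2_neg, neg_sub]

theorem n2_smul (c : ℂ) (T : Op G) : n2 (c • T) = ‖c‖ * n2 T := norm_smul c (T (dl 1))

theorem n2_star {T : Op G} (hT : T ∈ Mcom G) : n2 (star T) = n2 T := by
  have : star T (dl 1) = star (reix (Equiv.inv G) (T (dl 1))) := by
    refine lp.ext (funext fun g => ?_)
    rw [← inner_dl, ContinuousLinearMap.star_eq_adjoint, ContinuousLinearMap.adjoint_inner_right,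
      ← inner_conj_symm, inner_dl, ← rho_dl g]
    have h1 := congrArg (fun U : Op G => U (dl 1) 1) (hT g⁻¹).eq
    simp only [mul_apply_eq_comp, rho_apply, one_mul] at h1
    rw [← h1]
    rfl
  rw [n2, this, norm_star, norm_reix, n2]

theorem n2_mul_le' {S T : Op G} (hS : S ∈ Mcom G) (hT : T ∈ Mcom G) :
    n2 (S * T) ≤ n2 S * ‖T‖ := by
  rw [← n2_star (mul_mem hS hT), star_mul, ← n2_star hS, ← norm_star T, mul_comm]
  exact n2_mul_le _ _

theorem norm_groupTr_le (T : Op G) : ‖groupTr G T‖ ≤ n2 T := by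
  rw [groupTr_eq]
  exact lp.norm_apply_le_norm (by norm_num) _ _

theorem groupTr_star_mul (T : Op G) : (groupTr G (star T * T)).re = n2 T ^ 2 := by
  have : groupTr G (star T * T) = inner ℂ (dl (1 : G)) ((star T * T) (dl 1)) := rfl
  rw [this, mul_apply_eq_comp, ContinuousLinearMap.star_eq_adjoint,
    ContinuousLinearMap.adjoint_inner_right, n2, ← inner_self_eq_norm_sq (𝕜 := ℂ)]
  rfl

theorem groupTr_add (S T : Op G) : groupTr G (S + T) = groupTr G S + groupTr G T := by
  simp only [groupTr_eq]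
  rfl

theorem groupTr_sub (S T : Op G) : groupTr G (S - T) = groupTr G S - groupTr G T := by
  simp only [groupTr_eq]
  rfl

theorem groupTr_smul (c : ℂ) (T : Op G) : groupTr G (c • T) = c * groupTr G T := by
  simp only [groupTr_eq]
  rfl

theorem groupTr_zero : groupTr G 0 = 0 := by
  simp only [groupTr_eq]
  rfl

theorem mem_closure_span_dl (ξ : SqSum G) :
    ξ ∈ closure ((fun T : Op G => T (dl 1)) ''
      (Submodule.span ℂ (Set.range (lam (G := G))) : Set (Op G))) := by
  classical
  refine mem_closure_of_tendsto (lp.hasSum_single (by norm_num) ξ)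
    (Filter.Eventually.of_forall fun s => ⟨∑ g ∈ s, ξ g • lam g, ?_, ?_⟩)
  · exact Submodule.sum_mem _ fun g _ =>
      Submodule.smul_mem _ _ (Submodule.subset_span ⟨g, rfl⟩)
  · simp only [sum_apply, smul_apply, lam_dl]
    refine Finset.sum_congr rfl fun g _ => ?_
    rw [dl, ← lp.single_smul, smul_eq_mul, mul_one]

end

end Pool.Agent.P.MP_6c8412_lc
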